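import Pool.Agent.Y981.L2.Area5
import Pool.Agent.H979R2.P2.Main

/-!
The area of the planar self-avoiding polygons: upper bounds that are sub-quadratic by a factor
`n ^ (c / log log n)`.
-/

set_option autoImplicit false

namespace Pool.Agent.T6.H70.AreaUp

open Pool.Agent.Y981.L2 H981 Finset Filter Topology
open Pool.Agent.H979R2.P2 (prob diam dist2 Yv prob_mono)

/-! ### The two lattices of coordinates -/

/-- walks in the two descriptions of the plane -/
def eW (n : ℕ) : (Fin (n + 1) → (Fin 2 → ℤ)) ≃ (Fin (n + 1) → ℤ × ℤ) :=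
  Equiv.piCongrRight fun _ => finTwoArrowEquiv ℤ

theorem eW_apply (n : ℕ) (w : Fin (n + 1) → (Fin 2 → ℤ)) (i : Fin (n + 1)) :
    eW n w i = (w i 0, w i 1) := rfl

theorem saw_iff (n : ℕ) (w : Fin (n + 1) → (Fin 2 → ℤ)) :
    Pool.Agent.H725R2.SB.IsSAW 2 n w ↔ H981.IsSAW n (eW n w) := by
  unfold Pool.Agent.H725R2.SB.IsSAW H981.IsSAW
  refine and_congr ?_ (and_congr ?_ ?_)
  · rw [eW_apply]
    constructor
    · intro h
      rw [h]
      rfl
    · intro h
      obtain ⟨h1, h2⟩ := Prod.mk.inj h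
      funext k
      fin_cases k
      · exact h1
      · exact h2
  · refine forall_congr' fun i => ?_
    rw [eW_apply, eW_apply, Fin.sum_univ_two]
  · constructor
    · intro h i j hij
      apply h
      rw [eW_apply, eW_apply] at hij
      obtain ⟨h1, h2⟩ := Prod.mk.inj hij
      funext k
      fin_cases k
      · exact h1
      · exact h2
    · intro h i j hij
      apply h
      rw [eW_apply, eW_apply, hij]

theorem card_saw (n : ℕ) :
    Nat.card {w : Fin (n + 1) → (Fin 2 → ℤ) // Pool.Agent.H725R2.SB.IsSAW 2 n w} =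
      TH795.EP.c n := by
  rw [← TH795.EP2.card_walks n]
  exact Nat.card_congr ((eW n).subtypeEquiv fun w => saw_iff n w)

/-- the end point `(x, 0)` is at distance at least `x` from the origin -/
theorem end_le_prob (n k : ℕ) :
    (TH795.EP.a n k 0 : ℝ) / TH795.EP.c n ≤ prob n (fun w => (k : ℝ) ≤ diam w) := by
  unfold prob
  rw [card_saw]
  refine div_le_div_of_nonneg_right ?_ (Nat.cast_nonneg _)
  have h0 := TH795.EP2.card_walks_to n ((k : ℤ), (0 : ℤ))
  simp only at h0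
  rw [← h0]
  have hfin := Pool.Agent.H979R2.P2.mom_finite n
  have hfin2 : Finite {w : Fin (n + 1) → (Fin 2 → ℤ) // Pool.Agent.H725R2.SB.IsSAW 2 n w ∧
      (k : ℝ) ≤ diam w} :=
    Finite.of_injective (fun w => (⟨w.1, w.2.1⟩ : {w : Fin (n + 1) → (Fin 2 → ℤ) //
      Pool.Agent.H725R2.SB.IsSAW 2 n w})) (fun a b h => Subtype.ext (congrArg (fun x => x.1) h))
  have h1 : Nat.card {ω : Fin (n + 1) → ℤ × ℤ // H981.IsSAW n ω ∧
      ω (Fin.last n) = ((k : ℤ), (0 : ℤ))} ≤
      Nat.card {w : Fin (n + 1) → (Fin 2 → ℤ) // Pool.Agent.H725R2.SB.IsSAW 2 n w ∧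
        (k : ℝ) ≤ diam w} := by
    refine Nat.card_le_card_of_injective (fun ω => ⟨(eW n).symm ω.1, ?_, ?_⟩) ?_
    · rw [saw_iff, Equiv.apply_symm_apply]
      exact ω.2.1
    · have h2 : ∀ i, ((eW n).symm ω.1) i 0 = (ω.1 i).1 ∧ ((eW n).symm ω.1) i 1 = (ω.1 i).2 := by
        intro i
        have h3 := eW_apply n ((eW n).symm ω.1) i
        rw [Equiv.apply_symm_apply] at h3
        rw [h3]
        exact ⟨rfl, rfl⟩
      refine le_trans ?_ (Pool.Agent.H979R2.P2.le_diam ((eW n).symm ω.1) (Fin.last n) 0)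
      unfold Pool.Agent.H979R2.P2.dist2
      rw [Fin.sum_univ_two, (h2 _).1, (h2 _).2, (h2 0).1, (h2 0).2, ω.2.2, ω.2.1.1]
      simp only [Int.cast_natCast, Int.cast_zero, sub_zero]
      have h4 : ((k : ℝ)) ^ 2 + (0 : ℝ) ^ 2 = (k : ℝ) ^ 2 := by ring
      rw [h4, Real.sqrt_sq (Nat.cast_nonneg _)]
    · intro ω ω' h
      have h3 := congrArg (fun x => x.1) h
      exact Subtype.ext ((eW n).symm.injective h3)
  exact_mod_cast h1

/-- the tail of the area against the tail of the diameter of the walk -/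
theorem par_le_prob : ∃ K : ℝ, 0 ≤ K ∧ ∀ n : ℕ, 2 ≤ n → ∀ k : ℕ, 1 ≤ k → 2 * k < n →
    par n ((k : ℝ) ^ 2) ≤ Real.exp (K * Real.log n ^ 2) *
      prob (2 * n) (fun w => 2 * (k : ℝ) ≤ diam w) := by
  obtain ⟨K, hK, h⟩ := area_end
  refine ⟨K, hK, fun n hn k hk hkn => ?_⟩
  refine (h n hn k hk hkn).2.trans (mul_le_mul_of_nonneg_left ?_ (Real.exp_pos _).le)
  have h1 := end_le_prob (2 * n) (2 * k)
  push_cast at h1
  exact h1

theorem prob_le_one (n : ℕ) (E : (Fin (n + 1) → (Fin 2 → ℤ)) → Prop) : prob n E ≤ 1 := by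
  unfold prob
  have hfin := Pool.Agent.H979R2.P2.mom_finite n
  refine div_le_one_of_le₀ ?_ (Nat.cast_nonneg _)
  have h1 := Nat.card_le_card_of_injective (α := {w : Fin (n + 1) → (Fin 2 → ℤ) //
    Pool.Agent.H725R2.SB.IsSAW 2 n w ∧ E w}) (fun w => (⟨w.1, w.2.1⟩ :
      {w : Fin (n + 1) → (Fin 2 → ℤ) // Pool.Agent.H725R2.SB.IsSAW 2 n w}))
      (fun a b h => Subtype.ext (congrArg (fun x => x.1) h))
  exact_mod_cast h1

theorem par_le_one {n : ℕ} (hn : 1 ≤ n) (r : ℝ) : par n r ≤ 1 := by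
  unfold par
  refine div_le_one_of_le₀ ?_ (Nat.cast_nonneg _)
  have h1 := Set.ncard_le_ncard (fun f (hf : f ∈ {f : ZMod (2 * n) → ℤ × ℤ |
    IsLoop (2 * n) f ∧ r ≤ area (2 * n) f}) => hf.1) (loops_finite hn)
  exact_mod_cast h1

theorem par_nonneg (n : ℕ) (r : ℝ) : 0 ≤ par n r := by
  unfold par
  positivity

end Pool.Agent.T6.H70.AreaUp
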