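import Pool.Agent.T6.H70.AreaUp

/-!
The area of the planar self-avoiding polygons: upper bounds that are sub-quadratic by a factor
`n ^ (c / log log n)`: the estimates.
-/

set_option autoImplicit false

namespace Pool.Agent.T6.H70.AreaUp

open Pool.Agent.Y981.L2 H981 Finset Filter Topology
open Pool.Agent.H979R2.P2 (prob diam dist2 Yv prob_mono)

theorem log8_le : Real.log 8 ≤ 2.08 := by
  have h := Real.log_two_lt_d9
  have h1 : Real.log 8 = 3 * Real.log 2 := by
    rw [show (8 : ℝ) = 2 ^ 3 by norm_num, Real.log_pow]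
    norm_num
  linarith

theorem Yv_le {u : ℝ} (hu : 0 < u) (hu1 : u ≤ 1) : Yv (Real.sqrt u / 8) ≤ 12 * Yv u := by
  have hs : 0 < Real.sqrt u := Real.sqrt_pos.2 hu
  set L := Real.log (1 / u) with hL
  have hL0 : 0 ≤ L := Real.log_nonneg (by rw [le_div_iff₀ hu]; linarith)
  have e1 : Real.log (1 / (Real.sqrt u / 8)) = Real.log 8 + L / 2 := by
    rw [one_div_div, Real.log_div (by norm_num) hs.ne', hL, one_div, Real.log_inv,
      Real.log_sqrt hu.le]
    ring
  unfold Yv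
  rw [e1, ← hL]
  have h8 := log8_le
  have h80 : 0 ≤ Real.log 8 := Real.log_nonneg (by norm_num)
  have h2 : 1 + (Real.log 8 + L / 2) ≤ 4 * (1 + L) := by linarith
  have h3 : Real.log (1 + (Real.log 8 + L / 2)) ≤ Real.log 4 + Real.log (1 + L) := by
    rw [← Real.log_mul (by norm_num) (by linarith)]
    exact Real.log_le_log (by linarith) h2
  have h4 : Real.log 4 ≤ 1.39 := by
    have h := Real.log_two_lt_d9
    have h1 : Real.log 4 = 2 * Real.log 2 := by
      rw [show (4 : ℝ) = 2 ^ 2 by norm_num, Real.log_pow]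
      norm_num
    linarith
  have h5 : 0 ≤ Real.log (1 + L) := Real.log_nonneg (by linarith)
  have h6 : 0 ≤ Real.log (1 + (Real.log 8 + L / 2)) := Real.log_nonneg (by linarith)
  have h7 : 1 + Real.log (1 + (Real.log 8 + L / 2)) ≤ 3 * (1 + Real.log (1 + L)) := by linarith
  calc (1 + (Real.log 8 + L / 2)) * (1 + Real.log (1 + (Real.log 8 + L / 2)))
      ≤ (4 * (1 + L)) * (3 * (1 + Real.log (1 + L))) :=
        mul_le_mul h2 h7 (by linarith) (by linarith)
    _ = _ := by ring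

theorem Yv_ge {u : ℝ} (hu : 0 < u) (hu1 : u ≤ 1) : 1 + Real.log (1 / u) ≤ Yv u := by
  have hL0 : 0 ≤ Real.log (1 / u) := Real.log_nonneg (by rw [le_div_iff₀ hu]; linarith)
  have h5 : 0 ≤ Real.log (1 + Real.log (1 / u)) := Real.log_nonneg (by linarith)
  unfold Yv
  nlinarith

/-- **Large deviations.** -/
theorem area_ld : ∃ C : ℝ, 0 < C ∧ ∀ C' : ℝ, C ≤ C' → ∀ u : ℝ, 0 < u → u ≤ 1 →
    ∀ n : ℕ, 2 ≤ n → par n (u * (n : ℝ) ^ 2) ≤
      C' * Real.exp (C' * (n : ℝ) ^ (3 / 4 : ℝ) - Real.exp (-(C' * Yv u)) * n) := by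
  obtain ⟨K, hK, h1⟩ := par_le_prob
  obtain ⟨C0, hC0, h2⟩ := Pool.Agent.H979R2.P2.plain_ld Pool.Agent.H979R2.P2.subb
  refine ⟨12 * C0 + 8 * K + 5, by positivity, ?_⟩
  intro C hC u hu hu1 n hn
  have hC5 : 5 ≤ C := by linarith
  have hn2 : (2 : ℝ) ≤ n := by exact_mod_cast hn
  have hn0 : (0 : ℝ) < n := by linarith
  have hn1 : (1 : ℝ) ≤ n := by linarith
  have hs : 0 < Real.sqrt u := Real.sqrt_pos.2 hu
  have hs1 : Real.sqrt u ≤ 1 := Real.sqrt_le_one.2 hu1
  have hsq : Real.sqrt u ^ 2 = u := Real.sq_sqrt hu.le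
  have hpow1 : (1 : ℝ) ≤ (n : ℝ) ^ (3 / 4 : ℝ) := Real.one_le_rpow hn1 (by norm_num)
  have hY := Yv_ge hu hu1
  have hL0 : 0 ≤ Real.log (1 / u) := Real.log_nonneg (by rw [le_div_iff₀ hu]; linarith)
  rcases lt_or_ge (Real.sqrt u * n) 8 with hsm | hbig
  · refine (par_le_one (by omega) _).trans ?_
    have e1 : Real.exp (-(C * Yv u)) * n ≤ 1 := by
      have e2 : Real.exp (-(C * Yv u)) ≤ Real.exp (-5) * u := by
        calc Real.exp (-(C * Yv u)) ≤ Real.exp (-5 + Real.log u) := by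
              apply Real.exp_le_exp.2
              have e3 : Real.log (1 / u) = - Real.log u := by rw [one_div, Real.log_inv]
              have e4 : C * (1 + Real.log (1 / u)) ≤ C * Yv u :=
                mul_le_mul_of_nonneg_left hY (by linarith)
              have e5 : 5 * (1 + Real.log (1 / u)) ≤ C * (1 + Real.log (1 / u)) :=
                mul_le_mul_of_nonneg_right hC5 (by linarith)
              linarith
          _ = Real.exp (-5) * u := by rw [Real.exp_add, Real.exp_log hu]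
      have e6 : Real.exp (-5) ≤ 1 / 32 := by
        rw [Real.exp_neg, inv_eq_one_div]
        apply one_div_le_one_div_of_le (by norm_num)
        have h3 : Real.exp 5 = Real.exp 1 ^ 5 := by
          rw [← Real.exp_nat_mul]
          norm_num
        rw [h3]
        have h4 := Real.exp_one_gt_d9
        calc (32 : ℝ) = 2 ^ 5 := by norm_num
          _ ≤ Real.exp 1 ^ 5 := pow_le_pow_left₀ (by norm_num) (by linarith) 5
      have e7 : u * n ≤ 32 := by
        have e8 : (Real.sqrt u * n) ^ 2 ≤ 8 ^ 2 := pow_le_pow_left₀ (by positivity) hsm.le 2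
        have e9 : (Real.sqrt u * n) ^ 2 = (u * n) * n := by
          rw [mul_pow, hsq]
          ring
        rw [e9] at e8
        by_contra h5
        push Not at h5
        nlinarith
      calc Real.exp (-(C * Yv u)) * n ≤ (Real.exp (-5) * u) * n :=
            mul_le_mul_of_nonneg_right e2 hn0.le
        _ = Real.exp (-5) * (u * n) := by ring
        _ ≤ (1 / 32) * 32 := mul_le_mul e6 e7 (by positivity) (by norm_num)
        _ = 1 := by norm_num
    have e3 : 0 ≤ C * (n : ℝ) ^ (3 / 4 : ℝ) - Real.exp (-(C * Yv u)) * n := by nlinarith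
    have e4 := Real.add_one_le_exp (C * (n : ℝ) ^ (3 / 4 : ℝ) - Real.exp (-(C * Yv u)) * n)
    nlinarith
  · set k := ⌊Real.sqrt u * n / 4⌋₊ with hk
    have k1 : (k : ℝ) ≤ Real.sqrt u * n / 4 := Nat.floor_le (by positivity)
    have k2 : Real.sqrt u * n / 4 < k + 1 := Nat.lt_floor_add_one _
    have k3 : 1 ≤ k := by
      have : (0 : ℝ) < k := by linarith
      exact_mod_cast this
    have hsn : Real.sqrt u * n ≤ n := by nlinarith
    have k4 : 2 * k < n := by
      have : (2 : ℝ) * k < n := by linarith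
      exact_mod_cast this
    have k5 : (k : ℝ) ^ 2 ≤ u * (n : ℝ) ^ 2 := by
      calc (k : ℝ) ^ 2 ≤ (Real.sqrt u * n) ^ 2 :=
            pow_le_pow_left₀ (Nat.cast_nonneg _) (by linarith [mul_pos hs hn0]) 2
        _ = _ := by rw [mul_pow, hsq]
    have g1 : par n (u * (n : ℝ) ^ 2) ≤ par n ((k : ℝ) ^ 2) := par_anti (by omega) k5
    have g2 := h1 n hn k k3 k4
    have g3 : prob (2 * n) (fun w => 2 * (k : ℝ) ≤ diam w) ≤
        prob (2 * n) (fun w => Real.sqrt u / 8 * ((2 * n : ℕ) : ℝ) ≤ diam w) := by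
      refine prob_mono fun w _ hw => le_trans ?_ hw
      push_cast
      linarith
    have g4 := h2 C0 le_rfl (Real.sqrt u / 8) (by positivity) (by linarith) (2 * n) (by omega)
    have g5 : K * Real.log n ^ 2 ≤ (64 / 9) * K * (n : ℝ) ^ (3 / 4 : ℝ) := by
      have g6 : Real.log n ≤ (n : ℝ) ^ (3 / 8 : ℝ) / (3 / 8) :=
        Real.log_le_rpow_div hn0.le (by norm_num)
      have g7 : 0 ≤ Real.log n := Real.log_nonneg hn1
      have g8 : Real.log n ^ 2 ≤ ((n : ℝ) ^ (3 / 8 : ℝ) / (3 / 8)) ^ 2 :=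
        pow_le_pow_left₀ g7 g6 2
      have g9 : ((n : ℝ) ^ (3 / 8 : ℝ) / (3 / 8)) ^ 2 = (64 / 9) * (n : ℝ) ^ (3 / 4 : ℝ) := by
        rw [div_pow, ← Real.rpow_natCast, ← Real.rpow_mul hn0.le]
        norm_num
        ring
      rw [g9] at g8
      calc K * Real.log n ^ 2 ≤ K * ((64 / 9) * (n : ℝ) ^ (3 / 4 : ℝ)) :=
            mul_le_mul_of_nonneg_left g8 hK
        _ = _ := by ring
    have g10 : ((2 * n : ℕ) : ℝ) ^ (3 / 4 : ℝ) ≤ 2 * (n : ℝ) ^ (3 / 4 : ℝ) := by
      push_cast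
      rw [Real.mul_rpow (by norm_num) hn0.le]
      refine mul_le_mul_of_nonneg_right ?_ (by positivity)
      calc (2 : ℝ) ^ (3 / 4 : ℝ) ≤ (2 : ℝ) ^ (1 : ℝ) :=
            Real.rpow_le_rpow_of_exponent_le (by norm_num) (by norm_num)
        _ = 2 := Real.rpow_one _
    have g11 : Real.exp (-(C * Yv u)) * n ≤
        Real.exp (-(C0 * Yv (Real.sqrt u / 8))) * ((2 * n : ℕ) : ℝ) := by
      push_cast
      have g12 : Real.exp (-(C * Yv u)) ≤ Real.exp (-(C0 * Yv (Real.sqrt u / 8))) := by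
        apply Real.exp_le_exp.2
        have g13 := mul_le_mul_of_nonneg_left (Yv_le hu hu1) hC0.le
        have g14 : (12 * C0) * Yv u ≤ C * Yv u :=
          mul_le_mul_of_nonneg_right (by linarith) (by linarith)
        linarith
      refine mul_le_mul g12 (by linarith) hn0.le (Real.exp_pos _).le
    calc par n (u * (n : ℝ) ^ 2) ≤ Real.exp (K * Real.log n ^ 2) *
          (C0 * Real.exp (C0 * ((2 * n : ℕ) : ℝ) ^ (3 / 4 : ℝ) -
            Real.exp (-(C0 * Yv (Real.sqrt u / 8))) * ((2 * n : ℕ) : ℝ))) :=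
          g1.trans (g2.trans (mul_le_mul_of_nonneg_left (g3.trans g4) (Real.exp_pos _).le))
      _ = C0 * Real.exp (K * Real.log n ^ 2 + (C0 * ((2 * n : ℕ) : ℝ) ^ (3 / 4 : ℝ) -
            Real.exp (-(C0 * Yv (Real.sqrt u / 8))) * ((2 * n : ℕ) : ℝ))) := by
          rw [Real.exp_add]
          ring
      _ ≤ C * Real.exp (C * (n : ℝ) ^ (3 / 4 : ℝ) - Real.exp (-(C * Yv u)) * n) := by
          refine mul_le_mul (by linarith) (Real.exp_le_exp.2 ?_) (Real.exp_pos _).le
            (by linarith)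
          have g15 := mul_le_mul_of_nonneg_left g10 hC0.le
          have g16 : (64 / 9) * K * (n : ℝ) ^ (3 / 4 : ℝ) + C0 * (2 * (n : ℝ) ^ (3 / 4 : ℝ)) ≤
              C * (n : ℝ) ^ (3 / 4 : ℝ) := by
            have g17 : ((64 / 9) * K + 2 * C0) * (n : ℝ) ^ (3 / 4 : ℝ) ≤
                C * (n : ℝ) ^ (3 / 4 : ℝ) :=
              mul_le_mul_of_nonneg_right (by linarith) (by linarith)
            linarith
          linarith

theorem tend_ll : Tendsto (fun n : ℕ => Real.log (n : ℝ) / Real.log (Real.log (n : ℝ)))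
    atTop atTop := by
  have hlim : Filter.Tendsto (fun x : ℝ => x / Real.log x) Filter.atTop Filter.atTop := by
    have h1 : Filter.Tendsto (fun x : ℝ => Real.log x / x) Filter.atTop (nhds 0) := by
      have := Real.tendsto_pow_log_div_mul_add_atTop 1 0 1 one_ne_zero
      simpa using this
    have h2 : ∀ᶠ x : ℝ in Filter.atTop, 0 < Real.log x / x := by
      filter_upwards [Filter.eventually_gt_atTop (1 : ℝ)] with x hx
      have := Real.log_pos hx
      positivity
    have h3 : Filter.Tendsto (fun x : ℝ => Real.log x / x) Filter.atTop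
        (nhdsWithin 0 (Set.Ioi 0)) := tendsto_nhdsWithin_iff.mpr ⟨h1, h2⟩
    have h4 := h3.inv_tendsto_nhdsGT_zero
    refine h4.congr (fun x => ?_)
    simp [inv_div]
  exact hlim.comp (Real.tendsto_log_atTop.comp tendsto_natCast_atTop_atTop)

theorem ll_ge {n : ℕ} (hn : 16 ≤ n) : 1 ≤ Real.log (Real.log (n : ℝ)) := by
  have hn16 : (16 : ℝ) ≤ n := by exact_mod_cast hn
  have h2 := Real.log_two_gt_d9
  have h3 : Real.log 16 = 4 * Real.log 2 := by
    rw [show (16 : ℝ) = 2 ^ 4 by norm_num, Real.log_pow]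
    norm_num
  have h4 : Real.exp 1 ≤ Real.log n := by
    have h5 := Real.exp_one_lt_d9
    have h6 := Real.log_le_log (by norm_num : (0 : ℝ) < 16) hn16
    linarith
  calc (1 : ℝ) = Real.log (Real.exp 1) := (Real.log_exp 1).symm
    _ ≤ _ := Real.log_le_log (Real.exp_pos 1) h4

/-- **Typical size.** -/
theorem area_typ : ∃ c C : ℝ, 0 < c ∧ 0 < C ∧ ∀ C' : ℝ, C ≤ C' → ∀ n : ℕ, 16 ≤ n →
    par n ((n : ℝ) ^ (2 - c / Real.log (Real.log n))) ≤
      C' * Real.exp (-(n : ℝ) ^ (4 / 5 : ℝ)) := by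
  obtain ⟨K, hK, h1⟩ := par_le_prob
  obtain ⟨c0, C0, hc0, hC0, h2⟩ := Pool.Agent.H979R2.P2.plain_typ Pool.Agent.H979R2.P2.fin
  have hev : ∀ᶠ n : ℕ in atTop, (Real.log 8 / (c0 / 4) + c0 + 8) ≤
      Real.log (n : ℝ) / Real.log (Real.log (n : ℝ)) := tend_ll.eventually_ge_atTop _
  have hev2 : ∀ᶠ n : ℕ in atTop, 25 * K / 0.7 ≤ (n : ℝ) ^ (2 / 5 : ℝ) :=
    ((tendsto_rpow_atTop (by norm_num : (0 : ℝ) < 2 / 5)).comp
      tendsto_natCast_atTop_atTop).eventually_ge_atTop _
  have hev3 : ∀ᶠ n : ℕ in atTop, c0 ≤ Real.log (Real.log (n : ℝ)) :=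
    (Real.tendsto_log_atTop.comp (Real.tendsto_log_atTop.comp
      tendsto_natCast_atTop_atTop)).eventually_ge_atTop _
  obtain ⟨n1, hn1⟩ := eventually_atTop.1 (hev.and (hev2.and (hev3.and (eventually_ge_atTop 64))))
  refine ⟨c0 / 2, max C0 (Real.exp n1), by positivity, lt_max_of_lt_left hC0, ?_⟩
  intro C' hC' n hn
  have hn16 : (16 : ℝ) ≤ n := by exact_mod_cast hn
  have hn0 : (0 : ℝ) < n := by linarith
  rcases le_or_gt n1 n with hnn | hnn
  · obtain ⟨a1, a2, a3, a4⟩ := hn1 n hnn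
    have hll := ll_ge hn
    have hll2 := ll_ge (n := 2 * n) (by omega)
    set ll := Real.log (Real.log (n : ℝ)) with hlldef
    set lm := Real.log (Real.log ((2 * n : ℕ) : ℝ)) with hlmdef
    have hlog : 1 ≤ Real.log n := by
      have h4 : Real.exp 1 ≤ n := by
        have := Real.exp_one_lt_d9
        linarith
      rw [Real.le_log_iff_exp_le hn0]
      exact h4
    have hlog2 : Real.log ((2 * n : ℕ) : ℝ) = Real.log 2 + Real.log n := by
      push_cast
      rw [Real.log_mul (by norm_num) hn0.ne']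
    have hl2 := Real.log_two_lt_d9
    have hl2' := Real.log_two_gt_d9
    have hlm : lm ≤ 2 * ll := by
      have b1 : Real.log 2 + Real.log n ≤ 2 * Real.log n := by linarith
      have b2 : lm ≤ Real.log 2 + ll := by
        have b3 : Real.log (Real.log ((2 * n : ℕ) : ℝ)) ≤ Real.log (2 * Real.log n) :=
          Real.log_le_log (by rw [hlog2]; linarith) (by rw [hlog2]; linarith)
        rw [Real.log_mul (by norm_num) (by linarith)] at b3
        exact b3
      linarith
    have h8 := log8_le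
    -- the two sizes
    have hX : (8 : ℝ) ≤ (n : ℝ) ^ (1 - c0 / 4 / ll) := by
      rw [Real.rpow_def_of_pos hn0]
      have b1 : Real.log n * (1 - c0 / 4 / ll) ≥ Real.log n * (3 / 4) := by
        refine mul_le_mul_of_nonneg_left ?_ (by linarith)
        have : c0 / 4 / ll ≤ 1 / 4 := by
          rw [div_le_iff₀ (by linarith)]
          linarith
        linarith
      have b2 : Real.log 64 ≤ Real.log n := Real.log_le_log (by norm_num) (by exact_mod_cast a4)
      have b3 : Real.log 64 = 2 * Real.log 8 := by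
        rw [show (64 : ℝ) = 8 ^ 2 by norm_num, Real.log_pow]
        norm_num
      have b4 : 0 ≤ Real.log 8 := Real.log_nonneg (by norm_num)
      calc (8 : ℝ) = Real.exp (Real.log 8) := (Real.exp_log (by norm_num)).symm
        _ ≤ _ := Real.exp_le_exp.2 (by linarith)
    set X := (n : ℝ) ^ (1 - c0 / 4 / ll) with hXdef
    have hXn : X ≤ n := by
      calc X ≤ (n : ℝ) ^ (1 : ℝ) := by
            refine Real.rpow_le_rpow_of_exponent_le (by linarith) ?_
            have : 0 ≤ c0 / 4 / ll := by positivity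
            linarith
        _ = n := Real.rpow_one _
    have hX2 : X ^ 2 = (n : ℝ) ^ (2 - c0 / 2 / ll) := by
      rw [hXdef, ← Real.rpow_natCast, ← Real.rpow_mul hn0.le]
      congr 1
      push_cast
      ring
    have hXm : ((2 * n : ℕ) : ℝ) ^ (1 - c0 / lm) ≤ X / 4 := by
      rw [Real.rpow_def_of_pos (by push_cast; linarith), hXdef, Real.rpow_def_of_pos hn0, hlog2]
      have b1 : Real.exp (Real.log n * (1 - c0 / 4 / ll)) / 4 =
          Real.exp (Real.log n * (1 - c0 / 4 / ll) - Real.log 4) := by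
        rw [Real.exp_sub, Real.exp_log (by norm_num)]
      rw [b1]
      apply Real.exp_le_exp.2
      have b2 : c0 / (2 * ll) ≤ c0 / lm :=
        div_le_div_of_nonneg_left hc0.le (by linarith) hlm
      have b3 : (Real.log 2 + Real.log n) * (c0 / (2 * ll)) ≤
          (Real.log 2 + Real.log n) * (c0 / lm) := mul_le_mul_of_nonneg_left b2 (by linarith)
      have b4 : Real.log n * (c0 / (2 * ll)) ≤ (Real.log 2 + Real.log n) * (c0 / (2 * ll)) := by
        refine mul_le_mul_of_nonneg_right (by linarith) (by positivity)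
      have b5 : Real.log 8 ≤ Real.log n * (c0 / 4 / ll) := by
        have b6 : Real.log 8 / (c0 / 4) ≤ Real.log n / ll := by
          linarith
        have b7 := mul_le_mul_of_nonneg_right b6 (show 0 ≤ c0 / 4 by positivity)
        have b8 : Real.log 8 / (c0 / 4) * (c0 / 4) = Real.log 8 := by field_simp
        have b9 : Real.log n / ll * (c0 / 4) = Real.log n * (c0 / 4 / ll) := by ring
        linarith
      have b10 : Real.log n * (c0 / (2 * ll)) = 2 * (Real.log n * (c0 / 4 / ll)) := by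
        field_simp
        ring
      have b11 : Real.log 8 = Real.log 2 + Real.log 4 := by
        rw [← Real.log_mul (by norm_num) (by norm_num)]
        norm_num
      have b12 : (Real.log 2 + Real.log n) * (1 - c0 / lm) =
          (Real.log 2 + Real.log n) - (Real.log 2 + Real.log n) * (c0 / lm) := by ring
      have b13 : Real.log n * (1 - c0 / 4 / ll) = Real.log n - Real.log n * (c0 / 4 / ll) := by
        ring
      rw [b12, b13]
      linarith
    set k := ⌊X / 4⌋₊ with hk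
    have k1 : (k : ℝ) ≤ X / 4 := Nat.floor_le (by positivity)
    have k2 : X / 4 < k + 1 := Nat.lt_floor_add_one _
    have k3 : 1 ≤ k := by
      have : (0 : ℝ) < k := by linarith
      exact_mod_cast this
    have k4 : 2 * k < n := by
      have : (2 : ℝ) * k < n := by linarith
      exact_mod_cast this
    have k5 : (k : ℝ) ^ 2 ≤ X ^ 2 := pow_le_pow_left₀ (Nat.cast_nonneg _) (by linarith) 2
    have g1 : par n (X ^ 2) ≤ par n ((k : ℝ) ^ 2) := par_anti (by omega) k5
    have g2 := h1 n (by omega) k k3 k4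
    have g3 : prob (2 * n) (fun w => 2 * (k : ℝ) ≤ diam w) ≤
        prob (2 * n) (fun w => ((2 * n : ℕ) : ℝ) ^ (1 - c0 / lm) ≤ diam w) := by
      refine prob_mono fun w _ hw => le_trans ?_ hw
      linarith
    have g4 := h2 C0 le_rfl (2 * n) (by omega)
    have g5 : K * Real.log n ^ 2 ≤ 0.7 * (n : ℝ) ^ (4 / 5 : ℝ) := by
      have g6 : Real.log n ≤ (n : ℝ) ^ (1 / 5 : ℝ) / (1 / 5) :=
        Real.log_le_rpow_div hn0.le (by norm_num)
      have g8 : Real.log n ^ 2 ≤ ((n : ℝ) ^ (1 / 5 : ℝ) / (1 / 5)) ^ 2 :=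
        pow_le_pow_left₀ (by linarith) g6 2
      have g9 : ((n : ℝ) ^ (1 / 5 : ℝ) / (1 / 5)) ^ 2 = 25 * (n : ℝ) ^ (2 / 5 : ℝ) := by
        rw [div_pow, ← Real.rpow_natCast, ← Real.rpow_mul hn0.le]
        norm_num
        ring
      rw [g9] at g8
      have g10 : (n : ℝ) ^ (4 / 5 : ℝ) = (n : ℝ) ^ (2 / 5 : ℝ) * (n : ℝ) ^ (2 / 5 : ℝ) := by
        rw [← Real.rpow_add hn0]
        norm_num
      have g11 : 25 * K ≤ 0.7 * (n : ℝ) ^ (2 / 5 : ℝ) := by
        rw [div_le_iff₀ (by norm_num)] at a2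
        linarith
      have g12 : (0 : ℝ) ≤ (n : ℝ) ^ (2 / 5 : ℝ) := by positivity
      rw [g10]
      calc K * Real.log n ^ 2 ≤ K * (25 * (n : ℝ) ^ (2 / 5 : ℝ)) :=
            mul_le_mul_of_nonneg_left g8 hK
        _ = (25 * K) * (n : ℝ) ^ (2 / 5 : ℝ) := by ring
        _ ≤ (0.7 * (n : ℝ) ^ (2 / 5 : ℝ)) * (n : ℝ) ^ (2 / 5 : ℝ) :=
            mul_le_mul_of_nonneg_right g11 g12
        _ = _ := by ring
    have g13 : 1.7 * (n : ℝ) ^ (4 / 5 : ℝ) ≤ ((2 * n : ℕ) : ℝ) ^ (4 / 5 : ℝ) := by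
      push_cast
      rw [Real.mul_rpow (by norm_num) hn0.le]
      refine mul_le_mul_of_nonneg_right ?_ (by positivity)
      have g14 : (1.7 : ℝ) ^ (5 : ℕ) ≤ (2 : ℝ) ^ (4 : ℕ) := by norm_num
      have g15 : (1.7 : ℝ) = ((1.7 : ℝ) ^ (5 : ℕ)) ^ (1 / 5 : ℝ) := by
        rw [← Real.rpow_natCast, ← Real.rpow_mul (by norm_num)]
        norm_num
      have g16 : (2 : ℝ) ^ (4 / 5 : ℝ) = ((2 : ℝ) ^ (4 : ℕ)) ^ (1 / 5 : ℝ) := by
        rw [← Real.rpow_natCast, ← Real.rpow_mul (by norm_num)]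
        norm_num
      rw [g15, g16]
      exact Real.rpow_le_rpow (by norm_num) g14 (by norm_num)
    rw [← hX2]
    calc par n (X ^ 2) ≤ Real.exp (K * Real.log n ^ 2) *
          (C0 * Real.exp (-((2 * n : ℕ) : ℝ) ^ (4 / 5 : ℝ))) :=
          g1.trans (g2.trans (mul_le_mul_of_nonneg_left (g3.trans g4) (Real.exp_pos _).le))
      _ = C0 * Real.exp (K * Real.log n ^ 2 + -((2 * n : ℕ) : ℝ) ^ (4 / 5 : ℝ)) := by
          rw [Real.exp_add]
          ring
      _ ≤ C' * Real.exp (-(n : ℝ) ^ (4 / 5 : ℝ)) := by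
          refine mul_le_mul ((le_max_left _ _).trans hC') (Real.exp_le_exp.2 ?_)
            (Real.exp_pos _).le (hC0.le.trans ((le_max_left _ _).trans hC'))
          linarith
  · refine (par_le_one (by omega) _).trans ?_
    have h7 : Real.exp n1 ≤ C' := (le_max_right _ _).trans hC'
    have h8 : (n : ℝ) ^ (4 / 5 : ℝ) ≤ n1 := by
      calc (n : ℝ) ^ (4 / 5 : ℝ) ≤ (n : ℝ) ^ (1 : ℝ) :=
            Real.rpow_le_rpow_of_exponent_le (by linarith) (by norm_num)
        _ = n := Real.rpow_one _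
        _ ≤ n1 := by exact_mod_cast hnn.le
    calc (1 : ℝ) = Real.exp n1 * Real.exp (-n1) := by rw [← Real.exp_add]; simp
      _ ≤ C' * Real.exp (-(n : ℝ) ^ (4 / 5 : ℝ)) := by
          refine mul_le_mul h7 (Real.exp_le_exp.mpr (by linarith)) (Real.exp_pos _).le ?_
          exact (Real.exp_pos _).le.trans h7

/-- the `p`-th moment of the area -/
noncomputable def mom (p n : ℕ) : ℝ :=
  (∑ᶠ f ∈ {f : ZMod (2 * n) → ℤ × ℤ | IsLoop (2 * n) f}, (area (2 * n) f : ℝ) ^ p) /
    ({f : ZMod (2 * n) → ℤ × ℤ | IsLoop (2 * n) f}.ncard : ℝ)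

theorem mom_le {n : ℕ} (hn : 1 ≤ n) (p : ℕ) {r : ℝ} (hr : 0 ≤ r)
    (hl : 0 < ({f : ZMod (2 * n) → ℤ × ℤ | IsLoop (2 * n) f}.ncard : ℝ)) :
    mom p n ≤ r ^ p + (4 * (n : ℝ) ^ 2) ^ p * par n r := by
  have hfin := loops_finite hn
  unfold mom par
  rw [div_le_iff₀ hl, finsum_mem_eq_finite_toFinset_sum _ hfin]
  have h1 : ∀ f ∈ hfin.toFinset, (area (2 * n) f : ℝ) ^ p ≤
      r ^ p + (if r ≤ area (2 * n) f then (4 * (n : ℝ) ^ 2) ^ p else 0) := by
    intro f hf
    rw [Set.Finite.mem_toFinset] at hf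
    have h2 := area_le hn hf
    have hrp : 0 ≤ r ^ p := pow_nonneg hr p
    split_ifs with h3
    · have := pow_le_pow_left₀ (Nat.cast_nonneg _) h2 p
      linarith
    · push Not at h3
      have := pow_le_pow_left₀ (Nat.cast_nonneg _) h3.le p
      linarith
  refine (Finset.sum_le_sum h1).trans ?_
  rw [Finset.sum_add_distrib, Finset.sum_const, nsmul_eq_mul, ← Finset.sum_filter,
    Finset.sum_const, nsmul_eq_mul]
  have e1 : (hfin.toFinset.card : ℝ) =
      ({f : ZMod (2 * n) → ℤ × ℤ | IsLoop (2 * n) f}.ncard : ℝ) := by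
    rw [Set.ncard_eq_toFinset_card _ hfin]
  have e2 : ((hfin.toFinset.filter (fun f => r ≤ (area (2 * n) f : ℝ))).card : ℝ) =
      ({f : ZMod (2 * n) → ℤ × ℤ | IsLoop (2 * n) f ∧ r ≤ area (2 * n) f}.ncard : ℝ) := by
    rw [← Set.ncard_coe_finset]
    congr 2
    ext f
    simp
  rw [e1, e2]
  apply le_of_eq
  field_simp

/-- **Moments.** -/
theorem area_mom : ∃ c : ℝ, 0 < c ∧ ∀ c' : ℝ, c' ≤ c → 0 < c' → ∀ p : ℕ, ∃ C : ℝ, 0 < C ∧
    ∀ n : ℕ, 16 ≤ n → mom p n ≤ C * ((n : ℝ) ^ (2 - c' / Real.log (Real.log n))) ^ p := by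
  obtain ⟨c, C0, hc, hC0, h1⟩ := area_typ
  obtain ⟨K0, -, hw⟩ := ln_le
  refine ⟨c, hc, fun c' hc' hc0 p => ?_⟩
  obtain ⟨K, hK, hexp⟩ := Pool.Agent.H979R2.P2.mom_exp (c' * p)
  refine ⟨1 + 4 ^ p * (C0 * K), by positivity, fun n hn => ?_⟩
  have hn16 : (16 : ℝ) ≤ n := by exact_mod_cast hn
  have hn0 : (0 : ℝ) < n := by linarith
  have hll := ll_ge hn
  set ll := Real.log (Real.log (n : ℝ)) with hlldef
  obtain ⟨hl, -⟩ := hw n (by omega)
  have hmono : (n : ℝ) ^ (2 - c / ll) ≤ (n : ℝ) ^ (2 - c' / ll) := by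
    refine Real.rpow_le_rpow_of_exponent_le (by linarith) ?_
    have := div_le_div_of_nonneg_right hc' (show 0 ≤ ll by linarith)
    linarith
  have h2 := mom_le (n := n) (by omega) p (r := (n : ℝ) ^ (2 - c / ll))
    (Real.rpow_nonneg hn0.le _) hl
  have h3 := h1 C0 le_rfl n hn
  set r := (n : ℝ) ^ (2 - c' / ll) with hr
  have hr0 : 0 < r := Real.rpow_pos_of_pos hn0 _
  have h4 : ((n : ℝ) ^ 2) ^ p ≤ r ^ p * (n : ℝ) ^ (c' * p) := by
    rw [hr, ← Real.rpow_natCast ((n : ℝ) ^ (2 - c' / ll)) p, ← Real.rpow_mul hn0.le,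
      ← Real.rpow_add hn0, ← pow_mul, ← Real.rpow_natCast]
    refine Real.rpow_le_rpow_of_exponent_le (by linarith) ?_
    push_cast
    have h5 : c' / ll ≤ c' := div_le_self hc0.le hll
    have h6 : c' / ll * p ≤ c' * p := mul_le_mul_of_nonneg_right h5 (Nat.cast_nonneg _)
    linarith
  have h7 := hexp n (by omega)
  have h8 : (4 * (n : ℝ) ^ 2) ^ p * par n ((n : ℝ) ^ (2 - c / ll)) ≤
      (4 ^ p * (C0 * K)) * r ^ p := by
    calc (4 * (n : ℝ) ^ 2) ^ p * par n ((n : ℝ) ^ (2 - c / ll))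
        ≤ (4 ^ p * (r ^ p * (n : ℝ) ^ (c' * p))) *
          (C0 * Real.exp (-(n : ℝ) ^ (4 / 5 : ℝ))) := by
          rw [mul_pow]
          exact mul_le_mul (mul_le_mul_of_nonneg_left h4 (by positivity)) h3
            (par_nonneg _ _) (by positivity)
      _ = (4 ^ p * C0 * r ^ p) * ((n : ℝ) ^ (c' * p) * Real.exp (-(n : ℝ) ^ (4 / 5 : ℝ))) := by
          ring
      _ ≤ (4 ^ p * C0 * r ^ p) * K := mul_le_mul_of_nonneg_left h7 (by positivity)
      _ = _ := by ring
  have h9 : ((n : ℝ) ^ (2 - c / ll)) ^ p ≤ r ^ p :=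
    pow_le_pow_left₀ (Real.rpow_nonneg hn0.le _) hmono p
  linarith

end Pool.Agent.T6.H70.AreaUp
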