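import Pool.Agent.T6.H70.CoxTri

set_option autoImplicit false

namespace Pool.Agent.T6.H70.CX

open Pool.Agent.R330.BP Pool.Agent.Helper741

variable {B : Type*} {M : CoxeterMatrix B} {W : Type*} [Group W] {cs : CoxeterSystem M W}

lemma parab_empty_eq {w : W} (h : w ∈ parab cs (∅ : Set B)) : w = 1 := by
  unfold parab at h
  simpa using h

lemma parab_singleton_cases {q : B} {w : W} (h : w ∈ parab cs ({q} : Set B)) :
    w = 1 ∨ w = cs.simple q := by
  unfold parab at h
  rw [Set.image_singleton] at h
  obtain ⟨k, hk⟩ := Subgroup.mem_closure_singleton.1 h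
  rcases Int.even_or_odd' k with ⟨m, hm | hm⟩
  · left
    rw [← hk, hm, zpow_mul]
    have : cs.simple q ^ (2 : ℤ) = 1 := by
      rw [zpow_ofNat, pow_two, cs.simple_mul_simple_self]
    rw [this, one_zpow]
  · right
    rw [← hk, hm, zpow_add, zpow_mul]
    have : cs.simple q ^ (2 : ℤ) = 1 := by
      rw [zpow_ofNat, pow_two, cs.simple_mul_simple_self]
    rw [this, one_zpow, one_mul, zpow_one]

/-- labels at least 3: the inequality -/
lemma caseA [Fintype B] [DecidableEq B] {φ : W → ℝ} (hφ : IsW cs φ) {C : ℝ}
    (hb : ∀ g, φ g ≤ C) {J : Set B} {t : B} {x v u : W} (ht : t ∉ J)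
    (hJf : Finite (parab cs J)) (hinf : ¬ Finite (parab cs (insert t J)))
    (hJ3 : ∀ a ∈ J, ∀ b ∈ J, a ≠ b → 3 ≤ M a b) (hJt : ∀ a ∈ J, 3 ≤ M a t)
    (hx : x ∈ parab cs J) (hbest : ∀ y ∈ parab cs J, φ y ≤ φ x)
    (hstrict : ∀ s1 ∈ J, ∀ y ∈ parab cs (J \ {s1}), φ y < φ x)
    (hxv : x = v * u) (hu : u ∈ parab cs (Kt M J t)) :
    φ v + φ (cs.simple t) ≤ 0 := by
  have hK : Kt M J t = ∅ := by
    ext s
    simp only [Kt, Set.mem_setOf_eq, Set.mem_empty_iff_false, iff_false, not_and]
    intro hs h2
    have := hJt s hs
    omega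
  rw [hK] at hu
  have hu1 := parab_empty_eq hu
  have hvx : v = x := by rw [hxv, hu1, mul_one]
  rw [hvx]
  -- `J` has two elements
  have hJ2 : ∀ a ∈ J, ∃ b ∈ J, b ≠ a := by
    intro a ha
    by_contra hc
    push Not at hc
    have hJa : J = {a} := by
      ext b
      constructor
      · intro hb'
        exact hc b hb'
      · rintro rfl
        exact ha
    apply hinf
    rw [hJa]
    exact finite_pair (s := a) (t := t) (by have := hJt a ha; omega)
  have hJne : J.Nonempty := by
    rw [Set.nonempty_iff_ne_empty]
    intro h0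
    apply hinf
    have : (insert t J : Set B) = {t, t} := by rw [h0]; simp
    rw [this]
    exact finite_pair (s := t) (t := t) (by rw [M.diagonal]; exact one_ne_zero)
  have hxpos : ∀ a ∈ J, 0 < φ x := by
    intro a ha
    have := hstrict a ha 1 (one_mem _)
    rwa [hφ.one] at this
  -- the length of `x`
  have h3 : 3 ≤ cs.length x := by
    by_contra hlt
    have hx1 : x ≠ 1 := by
      intro h
      obtain ⟨a, ha⟩ := hJne
      have := hxpos a ha
      rw [h, hφ.one] at this
      exact lt_irrefl _ this
    obtain ⟨q, hq⟩ := cs.exists_rightDescent_of_ne_one hx1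
    have hq' : cs.length (x * cs.simple q) < cs.length x := hq
    have hqJ : q ∈ J := desc_mem hx hq'
    have hxl : cs.length (x * cs.simple q) + 1 = cs.length x := by
      rcases cs.length_mul_simple x q with h | h <;> omega
    have hxq1 : x * cs.simple q ≠ 1 := by
      intro h
      have hxs : x = cs.simple q := by
        have := congrArg (fun z => z * cs.simple q) h
        simpa [ss'] using this
      obtain ⟨b, hbJ, hbq⟩ := hJ2 q hqJ
      have := hstrict b hbJ x (by
        rw [hxs]
        exact simple_mem_parab ⟨hqJ, fun h => hbq h.symm⟩)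
      exact lt_irrefl _ this
    obtain ⟨p, hp⟩ := cs.exists_rightDescent_of_ne_one hxq1
    have hp' : cs.length (x * cs.simple q * cs.simple p) < cs.length (x * cs.simple q) := hp
    have hpJ : p ∈ J := desc_mem (mul_mem hx (simple_mem_parab hqJ)) hp'
    have hpq : p ≠ q := by
      rintro rfl
      rw [ss'] at hp'
      omega
    have hl0 : cs.length (x * cs.simple q * cs.simple p) = 0 := by omega
    rw [cs.length_eq_zero_iff] at hl0
    have hxe : x = cs.simple p * cs.simple q := by
      have h1 := congrArg (fun z => z * cs.simple p * cs.simple q) hl0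
      simpa [ss'] using h1
    have hp3 := hJ3 p hpJ q hqJ hpq
    -- right
    have a1 : ¬ cs.length (x * cs.simple p) < cs.length x := by
      intro h
      have := three_le hpq hp3 h hq'
      omega
    have a2 := hφ.simple x p a1
    have a3 := hbest (x * cs.simple p) (mul_mem hx (simple_mem_parab hpJ))
    -- left
    have hl2 : cs.length x = 2 := by
      have : cs.length x ≠ 0 := fun h => hx1 (cs.length_eq_zero_iff.1 h)
      have : cs.length (x * cs.simple q) ≠ 0 := fun h => hxq1 (cs.length_eq_zero_iff.1 h)
      omega
    have b1 : cs.length (cs.simple q * x) = cs.length (cs.simple q) + cs.length x := by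
      rw [cs.length_simple, hl2]
      rcases cs.length_simple_mul x q with h | h
      · omega
      · exfalso
        have hd1 : cs.length (cs.simple q * x) < cs.length x := by omega
        have hd2 : cs.length (cs.simple p * x) < cs.length x := by
          rw [hxe, ss, cs.length_simple, ← hxe]; omega
        have e1 : cs.length (x⁻¹ * cs.simple q) < cs.length x⁻¹ := by
          rw [len_right, inv_inv, cs.length_inv]; exact hd1
        have e2 : cs.length (x⁻¹ * cs.simple p) < cs.length x⁻¹ := by
          rw [len_right, inv_inv, cs.length_inv]; exact hd2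
        have := three_le hpq hp3 e2 e1
        rw [cs.length_inv] at this
        omega
    have b2 := hφ _ _ b1
    have b3 := hbest (cs.simple q * x) (mul_mem (simple_mem_parab hqJ) hx)
    have c1 : φ x = φ (cs.simple p) + φ (cs.simple q) := by
      conv_lhs => rw [hxe]
      apply hφ
      rw [← hxe, cs.length_simple, cs.length_simple, hl2]
    have := hxpos p hpJ
    linarith
  -- straightness
  apply straight_le hφ hb hx (fun _ => True) trivial
  intro g hg _
  have d1 : ¬ cs.length (g * x * cs.simple t) < cs.length (g * x) :=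
    lemT ht hJ3 hJt _ g x rfl hg hx (by omega)
  refine ⟨d1, ?_, trivial⟩
  apply step_min ht hg hx
  · rw [hK]
    intro s hs
    exact hs.elim
  · exact d1
  · intro s hs _ _ hd
    apply lemT ht hJ3 hJt _ g _ rfl hg (mul_mem hx (simple_mem_parab hs))
    rcases cs.length_mul_simple x s with h | h <;> omega

end Pool.Agent.T6.H70.CX
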