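import Pool.Agent.T6.H70.CoxA

set_option autoImplicit false

namespace Pool.Agent.T6.H70.CX

open Pool.Agent.R330.BP Pool.Agent.Helper741

variable {B : Type*} {M : CoxeterMatrix B} {W : Type*} [Group W] {cs : CoxeterSystem M W}

/-- `t` is a right descent of `w` -/
def RD (cs : CoxeterSystem M W) (w : W) (i : B) : Prop :=
  cs.length (w * cs.simple i) < cs.length w

lemma rd_of_not {w : W} {i : B} (h : ¬ RD cs w i) : RD cs (w * cs.simple i) i := by
  unfold RD
  rw [ss', lt_or_lt w i h]
  omega

lemma front_len {i j : B} (k : ℕ) (u : List B) (w : W)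
    (h1 : cs.IsReduced (aw i j k ++ u)) (h2 : cs.wordProd (aw i j k ++ u) = w) : k ≤ cs.length w := by
  have h3 : cs.length (cs.wordProd (aw i j k ++ u)) = _ := h1.eq
  rw [h2, List.length_append, aw_length] at h3
  omega

lemma full_len [Fintype B] [DecidableEq B] {w : W} {i j : B} (hij : i ≠ j)
    (hi : RD cs w i) (hj : RD cs w j) (k : ℕ) (hk : k ≤ M i j) : k ≤ cs.length w := by
  have hi' : cs.length (cs.simple i * w⁻¹) < cs.length w⁻¹ := by
    rw [← len_right, cs.length_inv]; exact hi
  have hj' : cs.length (cs.simple j * w⁻¹) < cs.length w⁻¹ := by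
    rw [← len_right, cs.length_inv]; exact hj
  obtain ⟨u, h1, h2⟩ := exists_aw_front cs w⁻¹ k i j hij (Or.inr hk) hi' hj'
  have := front_len k u _ h1 h2
  rwa [cs.length_inv] at this

/-- the inverse of a reduced word, ending with an alternating word -/
lemma ends [Fintype B] [DecidableEq B] {w : W} {i j : B} (hij : i ≠ j)
    (hi : RD cs w i) (hj : RD cs w j) (k : ℕ) (hk : k ≤ M i j) :
    ∃ u : List B, cs.IsReduced (aw i j k ++ u) ∧ w = (cs.wordProd (aw i j k ++ u))⁻¹ := by
  have hi' : cs.length (cs.simple i * w⁻¹) < cs.length w⁻¹ := by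
    rw [← len_right, cs.length_inv]; exact hi
  have hj' : cs.length (cs.simple j * w⁻¹) < cs.length w⁻¹ := by
    rw [← len_right, cs.length_inv]; exact hj
  obtain ⟨u, h1, h2⟩ := exists_aw_front cs w⁻¹ k i j hij (Or.inr hk) hi' hj'
  exact ⟨u, h1, by rw [h2, inv_inv]⟩

lemma rd_inv_cons {j : B} {l : List B} (h : cs.IsReduced (j :: l)) :
    RD cs (cs.wordProd (j :: l))⁻¹ j := by
  unfold RD
  rw [len_right, inv_inv, cs.length_inv, cs.wordProd_cons, ss]
  exact IsReduced.lt h

lemma inv_cons_mul (i : B) (l : List B) :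
    (cs.wordProd (i :: l))⁻¹ * cs.simple i = (cs.wordProd l)⁻¹ := by
  rw [cs.wordProd_cons, mul_inv_rev, cs.inv_simple, ss']

lemma right_four [Fintype B] [DecidableEq B] {w : W} {i j : B} (hij : i ≠ j)
    (hi : RD cs w i) (hj : RD cs w j) (h4 : 4 ≤ M i j) :
    RD cs (w * cs.simple i * cs.simple j * cs.simple i) j := by
  obtain ⟨u, h1, h2⟩ := ends hij hi hj 4 h4
  have e : aw i j 4 ++ u = i :: j :: i :: j :: u := by simp [aw]
  rw [e] at h1 h2
  rw [h2, inv_cons_mul, inv_cons_mul, inv_cons_mul]
  exact rd_inv_cons (IsReduced.tail (IsReduced.tail (IsReduced.tail h1)))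

lemma right_five [Fintype B] [DecidableEq B] {w : W} {i j : B} (hij : i ≠ j)
    (hi : RD cs w i) (hj : RD cs w j) (h5 : 5 ≤ M i j) :
    RD cs (w * cs.simple i * cs.simple j * cs.simple i * cs.simple j) i := by
  obtain ⟨u, h1, h2⟩ := ends hij hi hj 5 h5
  have e : aw i j 5 ++ u = i :: j :: i :: j :: i :: u := by simp [aw]
  rw [e] at h1 h2
  rw [h2, inv_cons_mul, inv_cons_mul, inv_cons_mul, inv_cons_mul]
  exact rd_inv_cons (IsReduced.tail (IsReduced.tail (IsReduced.tail (IsReduced.tail h1))))

lemma right_six [Fintype B] [DecidableEq B] {w : W} {i j : B} (hij : i ≠ j)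
    (hi : RD cs w i) (hj : RD cs w j) (h6 : 6 ≤ M i j) :
    RD cs (w * cs.simple i * cs.simple j * cs.simple i * cs.simple j * cs.simple i) j := by
  obtain ⟨u, h1, h2⟩ := ends hij hi hj 6 h6
  have e : aw i j 6 ++ u = i :: j :: i :: j :: i :: j :: u := by simp [aw]
  rw [e] at h1 h2
  rw [h2, inv_cons_mul, inv_cons_mul, inv_cons_mul, inv_cons_mul, inv_cons_mul]
  exact rd_inv_cons (IsReduced.tail (IsReduced.tail (IsReduced.tail (IsReduced.tail
    (IsReduced.tail h1)))))

lemma right_b [Fintype B] [DecidableEq B] {w : W} {i j : B} (hij : i ≠ j)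
    (hi : RD cs w i) (hj : RD cs w j) : RD cs (w * cs.simple i) j := (right_two hij hi hj).2.1

/-- `i ∈ D(w i j)`-type lemma -/
lemma right_c [Fintype B] [DecidableEq B] {w : W} {i j : B} (hij : i ≠ j)
    (hi : RD cs w i) (hj : RD cs w j) (h3 : 3 ≤ M i j) :
    RD cs (w * cs.simple i * cs.simple j) i := by
  have := (right_two hij.symm hj hi).2.2 (by rw [M.symmetric]; exact h3)
  exact this

/-- alternating product of length `k` ending with `i` -/
def E (cs : CoxeterSystem M W) : B → B → ℕ → W
  | _, _, 0 => 1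
  | i, j, (k + 1) => E cs j i k * cs.simple i

lemma E_succ (i j : B) (k : ℕ) : E cs i j (k + 1) = E cs j i k * cs.simple i := rfl

lemma E_one (i j : B) : E cs i j 1 = cs.simple i := by simp [E]

lemma E_two (i j : B) : E cs i j 2 = cs.simple j * cs.simple i := by simp [E]

lemma E_mul (i j : B) (k : ℕ) : E cs i j (k + 1) * cs.simple i = E cs j i k := by
  rw [E_succ, ss']

lemma E_eq (i j : B) (k : ℕ) :
    E cs i j k = cs.wordProd (CoxeterSystem.alternatingWord j i k) := by
  induction k generalizing i j with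
  | zero => simp [E, CoxeterSystem.alternatingWord]
  | succ k ih =>
    rw [CoxeterSystem.alternatingWord_succ, cs.wordProd_concat, E_succ, ih]

lemma E_mem {J : Set B} {i j : B} (hi : i ∈ J) (hj : j ∈ J) (k : ℕ) : E cs i j k ∈ parab cs J := by
  induction k generalizing i j with
  | zero => exact one_mem _
  | succ k ih =>
    rw [E_succ]
    exact mul_mem (ih hj hi) (simple_mem_parab hi)

lemma E_len [Fintype B] [DecidableEq B] {i j : B} (hij : i ≠ j) {k : ℕ} (hk : k ≤ M i j) :
    cs.length (E cs i j k) = k := by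
  have h := isReduced_alternatingWord cs (i := j) (j := i) hij.symm (k := k)
    (Or.inr (by rw [M.symmetric]; exact hk))
  rw [E_eq, h.eq, CoxeterSystem.length_alternatingWord]

lemma E_braid (i j : B) : E cs i j (M i j) = E cs j i (M i j) := by
  rw [E_eq, E_eq]
  have := cs.wordProd_braidWord_eq j i
  unfold CoxeterSystem.braidWord at this
  rw [M.symmetric j i] at this
  exact this

lemma E_rd [Fintype B] [DecidableEq B] {i j : B} (hij : i ≠ j) {k : ℕ} (hk : k + 1 ≤ M i j) :
    RD cs (E cs i j (k + 1)) i := by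
  unfold RD
  rw [E_mul, E_len hij hk, E_len hij.symm (by rw [M.symmetric]; omega)]
  omega

/-- classification of the elements of a dihedral parabolic subgroup -/
lemma dih [Fintype B] [DecidableEq B] {i j : B} (hij : i ≠ j) :
    ∀ (n : ℕ) (x : W), cs.length x = n → x ∈ parab cs ({i, j} : Set B) →
      x = E cs i j n ∨ x = E cs j i n := by
  intro n
  induction n with
  | zero =>
    intro x hx _
    left
    exact cs.length_eq_zero_iff.1 hx
  | succ n ih =>
    intro x hx hm
    have hx1 : x ≠ 1 := by
      rintro rfl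
      simp at hx
    obtain ⟨q, hq⟩ := cs.exists_rightDescent_of_ne_one hx1
    have hq' : cs.length (x * cs.simple q) < cs.length x := hq
    have hqJ := desc_mem hm hq'
    have hl : cs.length (x * cs.simple q) = n := by
      rcases cs.length_mul_simple x q with h | h <;> omega
    have hback : x = x * cs.simple q * cs.simple q := by rw [ss']
    have hcase := ih _ hl (mul_mem hm (simple_mem_parab hqJ))
    -- the last letter of `x q` is not `q`
    cases n with
    | zero =>
      have h1 : x * cs.simple q = 1 := cs.length_eq_zero_iff.1 hl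
      rw [h1, one_mul] at hback
      rcases hqJ with rfl | hqJ
      · left; rw [hback, E_one]
      · rw [Set.mem_singleton_iff] at hqJ
        subst hqJ
        right; rw [hback, E_one]
    | succ n =>
      have hnd : ∀ a b : B, x * cs.simple q = E cs a b (n + 1) → a ≠ q := by
        rintro a b hab rfl
        have h1 : x = E cs b a n := by rw [hback, hab, E_mul]
        have h2 : cs.length (E cs b a n) ≤ n := by
          rw [E_eq]
          exact (cs.length_wordProd_le _).trans (by rw [CoxeterSystem.length_alternatingWord])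
        rw [← h1, hx] at h2
        omega
      rcases hqJ with rfl | hqJ
      · rcases hcase with h | h
        · exact absurd rfl (hnd _ _ h)
        · left
          rw [E_succ, ← h, ← hback]
      · rw [Set.mem_singleton_iff] at hqJ
        subst hqJ
        rcases hcase with h | h
        · right
          rw [E_succ, ← h, ← hback]
        · exact absurd rfl (hnd _ _ h)

lemma len_le_M [Fintype B] [DecidableEq B] {i j : B} (hij : i ≠ j) (h0 : M i j ≠ 0) {x : W}
    (hx : x ∈ parab cs ({i, j} : Set B)) : cs.length x ≤ M i j := by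
  by_contra hlt
  push Not at hlt
  have key : ∀ a b : B, M a b = M i j → M a b < cs.length x → x = E cs a b (cs.length x) →
      False := by
    intro a b hab hl he
    have h1 := cs.not_isReduced_alternatingWord b a (m := cs.length x)
      (by rw [M.symmetric, hab]; exact h0) (by rw [M.symmetric]; exact hl)
    apply h1
    show cs.length (cs.wordProd _) = _
    rw [← E_eq, ← he, CoxeterSystem.length_alternatingWord]
  rcases dih hij _ x rfl hx with h | h
  · exact key i j rfl hlt h
  · exact key j i (M.symmetric _ _) (by rw [M.symmetric]; exact hlt) h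

lemma phi_E [Fintype B] [DecidableEq B] {φ : W → ℝ} (hφ : IsW cs φ) {i j : B} (hij : i ≠ j)
    {k : ℕ} (hk : k + 1 ≤ M i j) :
    φ (E cs i j (k + 1)) = φ (E cs j i k) + φ (cs.simple i) := by
  rw [E_succ]
  apply hφ
  rw [← E_succ, E_len hij hk, E_len hij.symm (by rw [M.symmetric]; omega), cs.length_simple]

lemma phi_E2 [Fintype B] [DecidableEq B] {φ : W → ℝ} (hφ : IsW cs φ) {i j : B} (hij : i ≠ j)
    {k : ℕ} (hk : k + 2 ≤ M i j) :
    φ (E cs i j (k + 2)) = φ (E cs i j k) + (φ (cs.simple i) + φ (cs.simple j)) := by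
  rw [phi_E hφ hij (k := k + 1) hk, phi_E hφ hij.symm (k := k) (by rw [M.symmetric]; omega)]
  ring

lemma phi_even [Fintype B] [DecidableEq B] {φ : W → ℝ} (hφ : IsW cs φ) {i j : B} (hij : i ≠ j)
    (k : ℕ) (hk : 2 * k ≤ M i j) :
    φ (E cs i j (2 * k)) = k * (φ (cs.simple i) + φ (cs.simple j)) := by
  induction k with
  | zero => simp [E, hφ.one]
  | succ k ih =>
    rw [show 2 * (k + 1) = 2 * k + 2 by ring, phi_E2 hφ hij (by omega), ih (by omega)]
    push_cast
    ring

lemma phi_odd [Fintype B] [DecidableEq B] {φ : W → ℝ} (hφ : IsW cs φ) {i j : B} (hij : i ≠ j)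
    (k : ℕ) (hk : 2 * k + 1 ≤ M i j) :
    φ (E cs i j (2 * k + 1)) =
      k * (φ (cs.simple i) + φ (cs.simple j)) + φ (cs.simple i) := by
  rw [phi_E hφ hij hk, phi_even hφ hij.symm k (by rw [M.symmetric]; omega)]
  ring

/-- odd labels: equal weights -/
lemma phi_eq_of_odd [Fintype B] [DecidableEq B] {φ : W → ℝ} (hφ : IsW cs φ) {i j : B}
    (hij : i ≠ j) (h : Odd (M i j)) : φ (cs.simple i) = φ (cs.simple j) := by
  obtain ⟨k, hk⟩ := h
  have h1 := phi_odd hφ hij k hk.ge
  have h2 := phi_odd hφ hij.symm k (by rw [M.symmetric]; exact hk.ge)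
  have h3 := E_braid (cs := cs) i j
  rw [hk] at h3
  rw [h3, h2] at h1
  linarith

/-- positive weights force finiteness -/
lemma fin_of_pos [Fintype B] {φ : W → ℝ} (hφ : IsW cs φ) {C : ℝ} (hb : ∀ g, φ g ≤ C)
    {I : Set B} (hI : ∀ i ∈ I, 0 < φ (cs.simple i)) : Finite (parab cs I) := by
  classical
  by_cases hne : I.Nonempty
  · obtain ⟨i0, hi0, hmin⟩ := Set.exists_min_image I (fun i => φ (cs.simple i)) (Set.toFinite I) hne
    have h1 : ∀ ω : List B, cs.IsReduced ω → (∀ i ∈ ω, i ∈ I) →
        ω.length * φ (cs.simple i0) ≤ φ (cs.wordProd ω) := by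
      intro ω
      induction ω with
      | nil => intro _ _; simp [hφ.one]
      | cons i ω ih =>
        intro hr hm
        have h2 := ih (IsReduced.tail hr) (fun j hj => hm j (by simp [hj]))
        have h3 : φ (cs.wordProd (i :: ω)) = φ (cs.simple i) + φ (cs.wordProd ω) := by
          rw [cs.wordProd_cons]
          apply hφ
          rw [← cs.wordProd_cons, cs.length_simple, hr.eq, (IsReduced.tail hr).eq, List.length_cons]
          omega
        have h4 := hmin i (hm i (by simp))
        rw [h3, List.length_cons]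
        push_cast
        linarith
    obtain ⟨n, hn⟩ := exists_nat_gt (C / φ (cs.simple i0))
    have hpos := hI i0 hi0
    rw [div_lt_iff₀ hpos] at hn
    have h2 : (parab cs I : Set W) ⊆ cs.wordProd '' {ω : List B | ω.length ≤ n} := by
      intro w hw
      obtain ⟨ω, a1, a2, a3⟩ := exists_reduced_of_mem hw
      refine ⟨ω, ?_, a3⟩
      have h3 := h1 ω a2 a1
      have h4 := hb (cs.wordProd ω)
      show ω.length ≤ n
      by_contra hlt
      push Not at hlt
      have h5 : (n : ℝ) * φ (cs.simple i0) ≤ ω.length * φ (cs.simple i0) :=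
        mul_le_mul_of_nonneg_right (by exact_mod_cast hlt.le) hpos.le
      linarith
    exact (Set.Finite.subset ((List.finite_length_le B n).image _) h2).to_subtype
  · rw [Set.not_nonempty_iff_eq_empty] at hne
    have : parab cs I = ⊥ := by
      rw [hne]
      unfold parab
      simp
    rw [this]
    infer_instance

end Pool.Agent.T6.H70.CX
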