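import Pool.Agent.R330.BP.Parab
import Pool.Agent.Helper741.Matsumoto

set_option autoImplicit false

/-! Weight functions on Coxeter groups: where the bound is attained. -/

namespace Pool.Agent.T6.H70.CX

open Pool.Agent.R330.BP Pool.Agent.Helper741

variable {B : Type*} {M : CoxeterMatrix B} {W : Type*} [Group W] {cs : CoxeterSystem M W}

/-! two descents -/

lemma left_two [Fintype B] [DecidableEq B] {w : W} {i j : B} (hij : i ≠ j)
    (hi : cs.length (cs.simple i * w) < cs.length w)
    (hj : cs.length (cs.simple j * w) < cs.length w) :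
    M i j ≠ 0 ∧
    cs.length (cs.simple j * (cs.simple i * w)) < cs.length (cs.simple i * w) ∧
    (3 ≤ M i j → cs.length (cs.simple j * (cs.simple i * (cs.simple j * w))) <
      cs.length (cs.simple i * (cs.simple j * w))) := by
  have h0 : M i j ≠ 0 := by
    intro h0
    obtain ⟨u, h1, h2⟩ := exists_aw_front cs w (cs.length w + 1) i j hij (Or.inl h0) hi hj
    have h3 : cs.length (cs.wordProd (aw i j (cs.length w + 1) ++ u)) = _ := h1.eq
    rw [h2, List.length_append, aw_length] at h3
    omega
  have h2le : 2 ≤ M i j := two_le_of_ne M hij h0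
  refine ⟨h0, ?_, ?_⟩
  · obtain ⟨u, h1, h2⟩ := exists_aw_front cs w 2 i j hij (Or.inr h2le) hi hj
    have e : aw i j 2 ++ u = i :: j :: u := by simp [aw]
    rw [e] at h1 h2
    have h3 := IsReduced.tail h1
    have h4 := IsReduced.lt h3
    have h5 : cs.simple i * w = cs.simple j * cs.wordProd u := by
      rw [← h2, cs.wordProd_cons, cs.wordProd_cons, ss]
    rw [h5, ss]
    exact h4
  · intro h3le
    obtain ⟨u, h1, h2⟩ := exists_aw_front cs w 3 j i hij.symm
      (Or.inr (by rw [M.symmetric j i]; exact h3le)) hj hi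
    have e : aw j i 3 ++ u = j :: i :: j :: u := by simp [aw]
    rw [e] at h1 h2
    have h3 := IsReduced.tail (IsReduced.tail h1)
    have h4 := IsReduced.lt h3
    have h5 : cs.simple i * (cs.simple j * w) = cs.simple j * cs.wordProd u := by
      rw [← h2, cs.wordProd_cons, cs.wordProd_cons, cs.wordProd_cons, ss, ss]
    rw [h5, ss]
    exact h4

lemma len_right (g : W) (i : B) : cs.length (g * cs.simple i) = cs.length (cs.simple i * g⁻¹) := by
  rw [← cs.length_inv (g * cs.simple i), mul_inv_rev, cs.inv_simple]

lemma right_two [Fintype B] [DecidableEq B] {g : W} {i j : B} (hij : i ≠ j)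
    (hi : cs.length (g * cs.simple i) < cs.length g)
    (hj : cs.length (g * cs.simple j) < cs.length g) :
    M i j ≠ 0 ∧
    cs.length (g * cs.simple i * cs.simple j) < cs.length (g * cs.simple i) ∧
    (3 ≤ M i j → cs.length (g * cs.simple j * cs.simple i * cs.simple j) <
      cs.length (g * cs.simple j * cs.simple i)) := by
  have hi' : cs.length (cs.simple i * g⁻¹) < cs.length g⁻¹ := by
    rw [← len_right, cs.length_inv]; exact hi
  have hj' : cs.length (cs.simple j * g⁻¹) < cs.length g⁻¹ := by
    rw [← len_right, cs.length_inv]; exact hj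
  obtain ⟨h0, h1, h2⟩ := left_two hij hi' hj'
  refine ⟨h0, ?_, ?_⟩
  · have e1 : g * cs.simple i * cs.simple j = (cs.simple j * (cs.simple i * g⁻¹))⁻¹ := by
      simp only [mul_inv_rev, inv_inv, cs.inv_simple, mul_assoc]
    have e2 : g * cs.simple i = (cs.simple i * g⁻¹)⁻¹ := by
      simp only [mul_inv_rev, inv_inv, cs.inv_simple]
    rw [e1, e2, cs.length_inv, cs.length_inv]
    exact h1
  · intro h3
    have e1 : g * cs.simple j * cs.simple i * cs.simple j =
        (cs.simple j * (cs.simple i * (cs.simple j * g⁻¹)))⁻¹ := by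
      simp only [mul_inv_rev, inv_inv, cs.inv_simple, mul_assoc]
    have e2 : g * cs.simple j * cs.simple i = (cs.simple i * (cs.simple j * g⁻¹))⁻¹ := by
      simp only [mul_inv_rev, inv_inv, cs.inv_simple, mul_assoc]
    rw [e1, e2, cs.length_inv, cs.length_inv]
    exact h2 h3

lemma desc_mem {J : Set B} {u : W} (hu : u ∈ parab cs J) {i : B}
    (hi : cs.length (u * cs.simple i) < cs.length u) : i ∈ J := by
  have h1 : cs.length (cs.simple i * u⁻¹) < cs.length u⁻¹ := by
    rw [← len_right, cs.length_inv]; exact hi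
  have h2 := leftDesc_subset_supp h1
  rw [supp_inv] at h2
  exact mem_parab_iff.1 hu h2

lemma lt_or_lt (g : W) (i : B) (h : ¬ cs.length (g * cs.simple i) < cs.length g) :
    cs.length (g * cs.simple i) = cs.length g + 1 := by
  rcases cs.length_mul_simple g i with h1 | h1 <;> omega

/-- Lemma X -/
lemma lemX [Fintype B] [DecidableEq B] {J : Set B} {t s1 : B} (ht : t ∉ J) (hM : M s1 t = 0)
    {g : W} (hg : g ∈ minRep cs J) : ∀ (n : ℕ) (u : W), cs.length u = n → u ∈ parab cs J →
      u ∉ parab cs (J \ {s1}) → ¬ cs.length (g * u * cs.simple t) < cs.length (g * u) := by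
  intro n
  induction n with
  | zero =>
    intro u hn hu hu' _
    rw [cs.length_eq_zero_iff] at hn
    exact hu' (by rw [hn]; exact one_mem _)
  | succ n ih =>
    intro u hn hu hu' hd
    have hu1 : u ≠ 1 := by
      rintro rfl
      simp at hn
    obtain ⟨r, hr⟩ := cs.exists_rightDescent_of_ne_one hu1
    have hr' : cs.length (u * cs.simple r) < cs.length u := hr
    have hrJ : r ∈ J := desc_mem hu hr'
    have hrt : r ≠ t := fun h => ht (h ▸ hrJ)
    have hur : u * cs.simple r ∈ parab cs J := mul_mem hu (simple_mem_parab hrJ)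
    have l1 := len_mul hg hu
    have l2 := len_mul hg hur
    have hgr : cs.length (g * u * cs.simple r) < cs.length (g * u) := by
      rw [mul_assoc, l2, l1]; omega
    obtain ⟨h0, h1, _⟩ := right_two hrt hgr hd
    have hrs : r ≠ s1 := by
      rintro rfl
      exact h0 hM
    have hur' : u * cs.simple r ∉ parab cs (J \ {s1}) := by
      intro h
      apply hu'
      have := mul_mem h (simple_mem_parab (cs := cs) (show r ∈ J \ {s1} from ⟨hrJ, hrs⟩))
      rwa [ss'] at this
    have hl : cs.length (u * cs.simple r) = n := by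
      rcases cs.length_mul_simple u r with h | h <;> omega
    have := ih (u * cs.simple r) hl hur hur'
    apply this
    rw [← mul_assoc]
    exact h1

/-- the letters of `J` that commute with `t` -/
def Kt (M : CoxeterMatrix B) (J : Set B) (t : B) : Set B := {s | s ∈ J ∧ M s t = 2}

lemma M_cases {s t : B} (h : s ≠ t) (h0 : M s t ≠ 0) (h2 : M s t ≠ 2) : 3 ≤ M s t := by
  have h1 : M s t ≠ 1 := M.off_diagonal s t h
  omega

/-- after `g v t` with `g` minimal, there is no descent in `J` -/
lemma step_min [Fintype B] [DecidableEq B] {J : Set B} {t : B} (ht : t ∉ J) {g v : W}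
    (hg : g ∈ minRep cs J) (hv : v ∈ parab cs J) (hvK : v ∈ minRep cs (Kt M J t))
    (hnt : ¬ cs.length (g * v * cs.simple t) < cs.length (g * v))
    (hX : ∀ s ∈ J, M s t ≠ 0 → M s t ≠ 2 → cs.length (v * cs.simple s) < cs.length v →
      ¬ cs.length (g * (v * cs.simple s) * cs.simple t) < cs.length (g * (v * cs.simple s))) :
    g * v * cs.simple t ∈ minRep cs J := by
  intro s hs
  by_contra hc
  have hst : s ≠ t := fun h => ht (h ▸ hs)
  have hne := cs.length_mul_simple_ne (g * v * cs.simple t) s
  have hd : cs.length (g * v * cs.simple t * cs.simple s) < cs.length (g * v * cs.simple t) := by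
    omega
  have hlt := lt_or_lt _ _ hnt
  have hdt : cs.length (g * v * cs.simple t * cs.simple t) < cs.length (g * v * cs.simple t) := by
    rw [ss', hlt]; omega
  obtain ⟨h0, _, h2⟩ := right_two hst hd hdt
  obtain ⟨_, h1, _⟩ := right_two hst.symm hdt hd
  rw [ss'] at h1 h2
  -- `s` is a descent of `g v`, hence of `v`
  have hvs : v * cs.simple s ∈ parab cs J := mul_mem hv (simple_mem_parab hs)
  have l1 := len_mul hg hv
  have l2 := len_mul hg hvs
  have hvd : cs.length (v * cs.simple s) < cs.length v := by
    rw [mul_assoc, l2, l1] at h1; omega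
  by_cases h2' : M s t = 2
  · have := hvK s ⟨hs, h2'⟩
    omega
  · have h3 := h2 (M_cases hst h0 h2')
    rw [mul_assoc g v] at h3
    exact hX s hs h0 h2' hvd h3

/-- weight functions, relative to a parabolic subgroup -/
def IsW (cs : CoxeterSystem M W) (φ : W → ℝ) : Prop :=
  ∀ g h : W, cs.length (g * h) = cs.length g + cs.length h → φ (g * h) = φ g + φ h

lemma IsW.one {φ : W → ℝ} (h : IsW cs φ) : φ 1 = 0 := by
  have := h 1 1 (by simp)
  rw [mul_one] at this
  linarith

lemma IsW.simple {φ : W → ℝ} (h : IsW cs φ) (g : W) (i : B)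
    (hi : ¬ cs.length (g * cs.simple i) < cs.length g) :
    φ (g * cs.simple i) = φ g + φ (cs.simple i) := by
  apply h
  rw [lt_or_lt _ _ hi, cs.length_simple]

/-- infinite case: powers -/
lemma pow_case [Fintype B] [DecidableEq B] {φ : W → ℝ} (hφ : IsW cs φ) {J : Set B} {t s1 : B}
    (ht : t ∉ J) (hM : M s1 t = 0) {v : W} (hv : v ∈ parab cs J)
    (hvK : v ∈ minRep cs (Kt M J t)) (hv1 : v ∉ parab cs (J \ {s1})) :
    ∀ n : ℕ, (v * cs.simple t) ^ n ∈ minRep cs J ∧
      φ ((v * cs.simple t) ^ n) = n * (φ v + φ (cs.simple t)) := by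
  intro n
  induction n with
  | zero =>
    refine ⟨?_, by simp [hφ.one]⟩
    intro s _
    simp
  | succ n ih =>
    obtain ⟨h1, h2⟩ := ih
    set g := (v * cs.simple t) ^ n with hg
    have hnt : ¬ cs.length (g * v * cs.simple t) < cs.length (g * v) :=
      lemX ht hM h1 _ v rfl hv hv1
    have hstep : g * v * cs.simple t ∈ minRep cs J := by
      apply step_min ht h1 hv hvK hnt
      intro s hs h0 _ _
      apply lemX ht hM h1 _ _ rfl (mul_mem hv (simple_mem_parab hs))
      intro hmem
      apply hv1
      have hs1 : s ≠ s1 := by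
        rintro rfl
        exact h0 hM
      have := mul_mem hmem (simple_mem_parab (cs := cs) (show s ∈ J \ {s1} from ⟨hs, hs1⟩))
      rwa [ss'] at this
    have e : (v * cs.simple t) ^ (n + 1) = g * v * cs.simple t := by
      rw [pow_succ, mul_assoc g v]
    rw [e]
    refine ⟨hstep, ?_⟩
    rw [hφ.simple _ _ hnt, hφ g v (len_mul h1 hv), h2]
    push_cast
    ring

/-- finite case -/
lemma vt_min [Fintype B] [DecidableEq B] {J : Set B} {t : B} (ht : t ∉ J) {v : W}
    (hv : v ∈ parab cs J) (hvK : v ∈ minRep cs (Kt M J t)) :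
    v * cs.simple t ∈ minRep cs J ∧ ¬ cs.length (v * cs.simple t) < cs.length v := by
  have hnt : ¬ cs.length (v * cs.simple t) < cs.length v := fun h => ht (desc_mem hv h)
  refine ⟨?_, hnt⟩
  have h1 : (1 : W) ∈ minRep cs J := by intro s _; simp
  have := step_min (g := 1) ht h1 hv hvK (by simpa using hnt) (by
    intro s hs _ _ _ h
    rw [one_mul] at h
    exact ht (desc_mem (mul_mem hv (simple_mem_parab hs)) h))
  simpa using this

lemma parab_insert_mem {J : Set B} {t : B} {v x : W} (hv : v ∈ parab cs J) (hx : x ∈ parab cs J) :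
    v * cs.simple t * x ∈ parab cs (insert t J) :=
  mul_mem (mul_mem (parab_mono (Set.subset_insert _ _) hv)
    (simple_mem_parab (Set.mem_insert _ _))) (parab_mono (Set.subset_insert _ _) hx)

/-- the core theorem -/
theorem core [Finite B] (φ : W → ℝ) (hφ : IsW cs φ) (C : ℝ) (hb : ∀ g, φ g ≤ C)
    (H : ∀ (J : Set B) (t : B), t ∉ J → Finite (parab cs J) → ¬ Finite (parab cs (insert t J)) →
      (∀ s ∈ J, M s t ≠ 0) → ∃ K : Set B, Finite (parab cs K) ∧ ∃ z ∈ parab cs K,
        ∀ y ∈ parab cs (insert t J), φ y ≤ φ z) :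
    ∃ J : Set B, Finite (parab cs J) ∧ ∃ x ∈ parab cs J, ∀ y, φ y ≤ φ x := by
  classical
  haveI := Fintype.ofFinite B
  -- the finite set of pairs
  let V : Set (Set B × W) := {p | Finite (parab cs p.1) ∧ p.2 ∈ parab cs p.1}
  have hVfin : V.Finite := by
    have : V ⊆ ⋃ J ∈ {J : Set B | Finite (parab cs J)}, ((fun w : W => (J, w)) '' (parab cs J : Set W)) := by
      rintro ⟨J, w⟩ ⟨h1, h2⟩
      simp only [Set.mem_iUnion]
      exact ⟨J, h1, w, h2, rfl⟩
    refine Set.Finite.subset (Set.Finite.biUnion (Set.toFinite _) ?_) this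
    intro J hJ
    have hJ' : Finite (parab cs J) := hJ
    exact (Set.toFinite (parab cs J : Set W)).image _
  have hVne : V.Nonempty := by
    refine ⟨(∅, 1), ?_, one_mem _⟩
    have : parab cs (∅ : Set B) = ⊥ := by
      unfold parab; simp
    show Finite (parab cs (∅ : Set B))
    rw [this]
    infer_instance
  obtain ⟨p0, hp0, hmax⟩ := Set.exists_max_image V (fun p => φ p.2) hVfin hVne
  let V' : Set (Set B × W) := {p | p ∈ V ∧ φ p.2 = φ p0.2}
  have hV'fin : V'.Finite := hVfin.subset fun p hp => hp.1
  obtain ⟨p1, hp1, hmin⟩ := Set.exists_min_image V' (fun p => p.1.ncard) hV'fin ⟨p0, hp0, rfl⟩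
  obtain ⟨J, x⟩ := p1
  obtain ⟨⟨hJ, hx⟩, hxe⟩ := hp1
  simp only at hJ hx hxe
  have hbest : ∀ J' : Set B, Finite (parab cs J') → ∀ y ∈ parab cs J', φ y ≤ φ x := by
    intro J' hJ' y hy
    rw [hxe]
    exact hmax (J', y) ⟨hJ', hy⟩
  have hfull : ∀ s1 ∈ J, x ∉ parab cs (J \ {s1}) := by
    intro s1 hs1 hmem
    have hsub : J \ {s1} ⊆ J := Set.diff_subset
    have hfin : Finite (parab cs (J \ {s1})) :=
      Finite.of_injective (fun w : parab cs (J \ {s1}) => (⟨w.1, parab_mono hsub w.2⟩ : parab cs J))
        (by
          intro a b hab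
          apply Subtype.ext
          exact congrArg (fun w : parab cs J => w.1) hab)
    have h1 := hmin (J \ {s1}, x) ⟨⟨hfin, hmem⟩, hxe⟩
    simp only at h1
    have h2 : (J \ {s1}).ncard < J.ncard := Set.ncard_diff_singleton_lt_of_mem hs1 (Set.toFinite J)
    omega
  refine ⟨J, hJ, x, hx, ?_⟩
  -- key inequality
  have key : ∀ t, t ∉ J → ∀ v' ∈ parab cs J, v' ∈ minRep cs (Kt M J t) →
      φ v' + φ (cs.simple t) ≤ 0 := by
    intro t ht v' hv' hv'K
    have hKJ : Kt M J t ⊆ J := fun s hs => hs.1
    obtain ⟨v, hvK, u, hu, hxv⟩ := exists_right (cs := cs) (Kt M J t) x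
    have huJ : u ∈ parab cs J := parab_mono hKJ hu
    have hvJ : v ∈ parab cs J := by
      have : v = x * u⁻¹ := by rw [hxv]; group
      rw [this]
      exact mul_mem hx (inv_mem huJ)
    have e1 : φ x = φ v + φ u := by
      rw [hxv]
      exact hφ _ _ (len_mul hvK hu)
    have e2 : φ (v' * u) = φ v' + φ u := hφ _ _ (len_mul hv'K hu)
    have e3 := hbest J hJ (v' * u) (mul_mem hv' huJ)
    have hle : φ v' ≤ φ v := by linarith
    suffices hs : φ v + φ (cs.simple t) ≤ 0 by linarith
    by_cases hinf : ∃ s1 ∈ J, M s1 t = 0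
    · obtain ⟨s1, hs1, hM⟩ := hinf
      have hv1 : v ∉ parab cs (J \ {s1}) := by
        intro hmem
        apply hfull s1 hs1
        rw [hxv]
        refine mul_mem hmem (parab_mono ?_ hu)
        intro s hs
        refine ⟨hs.1, ?_⟩
        rintro rfl
        have := hs.2
        omega
      have hp := pow_case hφ ht hM hvJ hvK hv1
      by_contra hpos
      push Not at hpos
      obtain ⟨n, hn⟩ := exists_nat_gt (C / (φ v + φ (cs.simple t)))
      rw [div_lt_iff₀ hpos] at hn
      have h1 := hb ((v * cs.simple t) ^ n)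
      rw [(hp n).2] at h1
      linarith
    · push Not at hinf
      obtain ⟨h1, h2⟩ := vt_min ht hvJ hvK
      have e4 : φ (v * cs.simple t * x) = φ v + φ (cs.simple t) + φ x := by
        rw [hφ _ _ (len_mul h1 hx), hφ.simple _ _ h2]
      have hmem := parab_insert_mem (t := t) hvJ hx
      have e5 : φ (v * cs.simple t * x) ≤ φ x := by
        by_cases hfin : Finite (parab cs (insert t J))
        · exact hbest _ hfin _ hmem
        · obtain ⟨K, hK, z, hz, hzz⟩ := H J t ht hJ hfin hinf
          exact (hzz _ hmem).trans (hbest K hK z hz)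
      linarith
  -- minimal representatives have nonpositive weight
  have hneg : ∀ (n : ℕ) (h : W), cs.length h = n → h ∈ minRep cs J → φ h ≤ 0 := by
    intro n
    induction n using Nat.strong_induction_on with
    | _ n ih =>
      intro h hn hmin'
      by_cases h1 : h = 1
      · rw [h1, hφ.one]
      obtain ⟨t, ht⟩ := cs.exists_rightDescent_of_ne_one h1
      have ht' : cs.length (h * cs.simple t) < cs.length h := ht
      have htJ : t ∉ J := by
        intro htJ
        have := hmin' t htJ
        omega
      set h' := h * cs.simple t with hh'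
      have hh : h = h' * cs.simple t := by rw [hh', ss']
      obtain ⟨h'', hh'', v', hv', hdec⟩ := exists_right (cs := cs) J h'
      have l1 := len_mul hh'' hv'
      rw [← hdec] at l1
      have hv'K : v' ∈ minRep cs (Kt M J t) := by
        intro s hs
        by_contra hc
        have hne := cs.length_mul_simple_ne v' s
        have hd : cs.length (v' * cs.simple s) < cs.length v' := by omega
        have l2 := len_mul hh'' (mul_mem hv' (simple_mem_parab (cs := cs) hs.1))
        have hd2 : cs.length (h' * cs.simple s) < cs.length h' := by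
          rw [hdec, mul_assoc, l2, ← hdec]; omega
        have hcomm : cs.simple s * cs.simple t = cs.simple t * cs.simple s := by
          have h3 := cs.simple_mul_simple_pow s t
          rw [hs.2, pow_two] at h3
          have h4 : cs.simple s * cs.simple t = (cs.simple s * cs.simple t)⁻¹ :=
            eq_inv_of_mul_eq_one_left h3
          rw [mul_inv_rev, cs.inv_simple, cs.inv_simple] at h4
          exact h4
        have h5 : h * cs.simple s = h' * cs.simple s * cs.simple t := by
          have : h * cs.simple s = h' * cs.simple t * cs.simple s :=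
            congrArg (fun z => z * cs.simple s) hh
          rw [this, mul_assoc, ← hcomm, ← mul_assoc]
        have h6 := hmin' s hs.1
        rw [h5] at h6
        have h7 := cs.length_mul_le (h' * cs.simple s) (cs.simple t)
        rw [cs.length_simple] at h7
        omega
      have h8 := key t htJ v' hv' hv'K
      have hnd : ¬ cs.length (h' * cs.simple t) < cs.length h' := by
        rw [← hh]; omega
      have e1 : φ h = φ h' + φ (cs.simple t) := by
        conv_lhs => rw [hh]
        exact hφ.simple _ _ hnd
      have e2 : φ h' = φ h'' + φ v' := by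
        rw [hdec]
        exact hφ _ _ (len_mul hh'' hv')
      have h9 := ih (cs.length h'') (by omega) h'' rfl hh''
      linarith
  intro y
  obtain ⟨g, hg, w, hw, hy⟩ := exists_right (cs := cs) J y
  have e1 : φ y = φ g + φ w := by
    rw [hy]
    exact hφ _ _ (len_mul hg hw)
  have e2 := hneg _ g rfl hg
  have e3 := hbest J hJ w hw
  linarith

/-- a finite standard parabolic subgroup is 2-spherical -/
lemma M_ne_zero_of_finite [Fintype B] [DecidableEq B] {J : Set B} (h : Finite (parab cs J))
    {i j : B} (hi : i ∈ J) (hj : j ∈ J) : M i j ≠ 0 := by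
  intro h0
  have hij : i ≠ j := by
    rintro rfl
    rw [M.diagonal] at h0
    omega
  have hmem : ∀ (k : ℕ) (a b : B), a ∈ J → b ∈ J → cs.wordProd (aw a b k) ∈ parab cs J := by
    intro k
    induction k with
    | zero => intro a b _ _; simp [aw, one_mem]
    | succ k ih =>
      intro a b ha hb
      rw [aw_succ, cs.wordProd_cons]
      exact mul_mem (simple_mem_parab ha) (ih b a hb ha)
  have hinj : Function.Injective (fun k : ℕ => (⟨cs.wordProd (aw i j k), hmem k i j hi hj⟩ :
      parab cs J)) := by
    intro a b hab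
    have h1 : cs.wordProd (aw i j a) = cs.wordProd (aw i j b) :=
      congrArg (fun w : parab cs J => w.1) hab
    have h2 : cs.length (cs.wordProd (aw i j a)) = _ := (isReduced_aw cs hij (Or.inl h0)).eq
    have h3 : cs.length (cs.wordProd (aw i j b)) = _ := (isReduced_aw cs hij (Or.inl h0)).eq
    rw [h1, h3, aw_length, aw_length] at h2
    exact h2.symm
  haveI := h
  exact not_injective_infinite_finite _ hinj

end Pool.Agent.T6.H70.CX
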