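import Pool.Agent.T6.H70.CoxC

set_option autoImplicit false

namespace Pool.Agent.T6.H70.CX

open Pool.Agent.R330.BP Pool.Agent.Helper741

variable {B : Type*} {M : CoxeterMatrix B} {W : Type*} [Group W] {cs : CoxeterSystem M W}

lemma comm_of_two {i j : B} (h : M i j = 2) :
    cs.simple i * cs.simple j = cs.simple j * cs.simple i := by
  have h3 := cs.simple_mul_simple_pow i j
  rw [h, pow_two] at h3
  have h4 : cs.simple i * cs.simple j = (cs.simple i * cs.simple j)⁻¹ :=
    eq_inv_of_mul_eq_one_left h3
  rw [mul_inv_rev, cs.inv_simple, cs.inv_simple] at h4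
  exact h4

/-- removing a descent of the `J`-part -/
lemma strip [Fintype B] [DecidableEq B] {J : Set B} {t : B} (ht : t ∉ J) {g w : W}
    (hg : g ∈ minRep cs J) (hw : w ∈ parab cs J) {i : B} (hi : RD cs w i)
    (hd : RD cs (g * w) t) : RD cs (g * (w * cs.simple i)) t := by
  have hiJ : i ∈ J := desc_mem hw hi
  have hit : i ≠ t := fun h => ht (h ▸ hiJ)
  have l1 := len_mul hg hw
  have l2 := len_mul hg (mul_mem hw (simple_mem_parab (cs := cs) hiJ))
  have h1 : RD cs (g * w) i := by
    unfold RD at hi ⊢
    rw [mul_assoc, l2, l1]; omega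
  have := right_b hit h1 hd
  rwa [mul_assoc] at this

lemma rd_mul [Fintype B] [DecidableEq B] {J : Set B} {g w : W}
    (hg : g ∈ minRep cs J) (hw : w ∈ parab cs J) {i : B} (hiJ : i ∈ J) :
    RD cs (g * w) i ↔ RD cs w i := by
  have l1 := len_mul hg hw
  have l2 := len_mul hg (mul_mem hw (simple_mem_parab (cs := cs) hiJ))
  unfold RD
  rw [mul_assoc, l2, l1]
  omega

/-- chain -/
lemma chain [Fintype B] [DecidableEq B] {J : Set B} {t r s : B} (ht : t ∉ J) (hr : r ∈ J)
    (hs : s ∈ J) (hrs : r ≠ s) {g : W} (hg : g ∈ minRep cs J) :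
    ∀ (j k : ℕ), k + 2 * j ≤ M s r → RD cs (g * E cs s r (k + 2 * j)) t →
      RD cs (g * E cs s r k) t := by
  intro j
  induction j with
  | zero => intro k _ h; simpa using h
  | succ j ih =>
    intro k hk h
    apply ih k (by omega)
    have e : k + 2 * (j + 1) = (k + 2 * j) + 1 + 1 := by ring
    rw [e] at h hk
    have h1 := strip ht hg (E_mem hs hr _) (E_rd hrs.symm (by omega)) h
    rw [E_mul] at h1
    have h2 := strip ht hg (E_mem hr hs _) (E_rd hrs (by rw [M.symmetric]; omega)) h1
    rw [E_mul] at h2
    exact h2

/-- right descents after `g v t` -/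
lemma step_min' [Fintype B] [DecidableEq B] {J : Set B} {t r s : B} (ht : t ∉ J)
    (hJ : J = {r, s}) (hrt : M r t = 2) {g v : W}
    (hg : g ∈ minRep cs J) (hv : v ∈ parab cs J) (hvr : ¬ RD cs v r)
    (hnt : ¬ RD cs (g * v) t) (hs : ¬ RD cs (g * v * cs.simple t) s) :
    g * v * cs.simple t ∈ minRep cs J := by
  intro i hi
  by_contra hc
  have hne := cs.length_mul_simple_ne (g * v * cs.simple t) i
  have hd : RD cs (g * v * cs.simple t) i := by
    unfold RD
    omega
  have hit : i ≠ t := fun h => ht (h ▸ hi)
  rw [hJ] at hi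
  rcases hi with rfl | hi
  · have h1 := right_b hit.symm (rd_of_not hnt) hd
    rw [ss'] at h1
    have h2 := (rd_mul hg hv (show i ∈ J by rw [hJ]; simp)).1 h1
    exact hvr h2
  · rw [Set.mem_singleton_iff] at hi
    subst hi
    exact hs hd

/-- case B: `r` and `s` commute, both joined to `t` by labels at least 4 -/
lemma strB [Fintype B] [DecidableEq B] {φ : W → ℝ} (hφ : IsW cs φ) {C : ℝ}
    (hb : ∀ g, φ g ≤ C) {t r s : B} (ht : t ∉ ({r, s} : Set B)) (hrs : r ≠ s)
    (h2 : M r s = 2) (h4r : 4 ≤ M r t) (h4s : 4 ≤ M s t) :
    φ (cs.simple r * cs.simple s) + φ (cs.simple t) ≤ 0 := by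
  have hrt : r ≠ t := fun h => ht (by simp [h])
  have hst : s ≠ t := fun h => ht (by simp [h])
  have hcomm := comm_of_two (cs := cs) h2
  have hvm : cs.simple r * cs.simple s ∈ parab cs ({r, s} : Set B) :=
    mul_mem (simple_mem_parab (by simp)) (simple_mem_parab (by simp))
  have hl2 : cs.length (cs.simple r * cs.simple s) = 2 := by
    rw [← E_two, E_len hrs.symm (by rw [M.symmetric]; omega)]
  have hds : RD cs (cs.simple r * cs.simple s) s := by
    unfold RD
    rw [ss', cs.length_simple, hl2]; omega
  have hdr : RD cs (cs.simple r * cs.simple s) r := by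
    unfold RD
    rw [hcomm, ss', cs.length_simple, ← hcomm, hl2]; omega
  have evs : cs.simple r * cs.simple s * cs.simple s = cs.simple r := ss' _ _
  have evr : cs.simple r * cs.simple s * cs.simple r = cs.simple s := by rw [hcomm, ss']
  apply straight_le hφ hb hvm
    (fun g => ¬ RD cs (g * cs.simple r) t ∧ ¬ RD cs (g * cs.simple s) t)
  · constructor
    · intro h
      have h' : RD cs (cs.simple r) t := by simpa using h
      exact ht (desc_mem (simple_mem_parab (by simp)) h')
    · intro h
      have h' : RD cs (cs.simple s) t := by simpa using h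
      exact ht (desc_mem (simple_mem_parab (by simp)) h')
  · intro g hg hQ
    obtain ⟨q1, q2⟩ := hQ
    have d1 : ¬ RD cs (g * (cs.simple r * cs.simple s)) t := by
      intro h
      have := strip ht hg hvm hds h
      rw [evs] at this
      exact q1 this
    have hmin : g * (cs.simple r * cs.simple s) * cs.simple t ∈ minRep cs ({r, s} : Set B) := by
      apply step_min ht hg hvm
      · intro i hi
        exfalso
        rcases hi.1 with h | h
        · have := hi.2; rw [h] at this; omega
        · rw [Set.mem_singleton_iff] at h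
          have := hi.2; rw [h] at this; omega
      · exact d1
      · intro i hi _ _ _
        rcases hi with rfl | hi
        · rw [evr]; exact q2
        · rw [Set.mem_singleton_iff] at hi
          subst hi
          rw [evs]; exact q1
    refine ⟨d1, hmin, ?_, ?_⟩
    · intro h
      have hr' : RD cs (g * (cs.simple r * cs.simple s) * cs.simple t * cs.simple r) r := by
        apply rd_of_not
        intro h'
        have := hmin r (by simp)
        unfold RD at h'
        omega
      have h5 := right_four hrt hr' h h4r
      rw [ss', ss', mul_assoc, evr] at h5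
      exact q2 h5
    · intro h
      have hs' : RD cs (g * (cs.simple r * cs.simple s) * cs.simple t * cs.simple s) s := by
        apply rd_of_not
        intro h'
        have := hmin s (by simp)
        unfold RD at h'
        omega
      have h5 := right_four hst hs' h h4s
      rw [ss', ss', mul_assoc, evs] at h5
      exact q1 h5

end Pool.Agent.T6.H70.CX
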