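import Pool.Agent.T6.H70.CoxS

set_option autoImplicit false

namespace Pool.Agent.T6.H70.CX

open Pool.Agent.R330.BP Pool.Agent.Helper741

variable {B : Type*} {M : CoxeterMatrix B} {W : Type*} [Group W] {cs : CoxeterSystem M W}

section common

variable [Fintype B] [DecidableEq B] {t r s : B}

lemma ne_of_notMem (ht : t ∉ ({r, s} : Set B)) : r ≠ t ∧ s ≠ t :=
  ⟨fun h => ht (by simp [h]), fun h => ht (by simp [h])⟩

/-- `v` with `0 < L < a` has no descent `r` -/
lemma not_rd_r (hrs : r ≠ s) {L : ℕ} (hL1 : 1 ≤ L) (hL : L < M s r) :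
    ¬ RD cs (E cs s r L) r := by
  obtain ⟨k, rfl⟩ : ∃ k, L = k + 1 := ⟨L - 1, by omega⟩
  intro h
  have h1 := full_len (cs := cs) hrs.symm (E_rd hrs.symm (k := k) (by omega)) h (M s r) le_rfl
  rw [E_len hrs.symm (by omega)] at h1
  omega

/-- from `¬ t ∈ D (g (v s))` to the two conditions -/
lemma from_N (ht : t ∉ ({r, s} : Set B)) (hrs : r ≠ s) (hrt2 : M r t = 2) (h3 : 3 ≤ M s t)
    {k : ℕ} (hL : k + 1 < M s r) {g : W} (hg : g ∈ minRep cs ({r, s} : Set B))
    (hN : ¬ RD cs (g * E cs r s k) t) :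
    ¬ RD cs (g * E cs s r (k + 1)) t ∧
      g * E cs s r (k + 1) * cs.simple t ∈ minRep cs ({r, s} : Set B) := by
  obtain ⟨hrt, hst⟩ := ne_of_notMem ht
  have hvm : E cs s r (k + 1) ∈ parab cs ({r, s} : Set B) := E_mem (by simp) (by simp) _
  have d1 : ¬ RD cs (g * E cs s r (k + 1)) t := by
    intro h
    have := strip ht hg hvm (E_rd hrs.symm (by omega)) h
    rw [E_mul] at this
    exact hN this
  refine ⟨d1, ?_⟩
  apply step_min' ht rfl hrt2 hg hvm (not_rd_r hrs (by omega) hL) d1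
  intro h
  have h1 := right_c hst.symm (rd_of_not d1) h (by rw [M.symmetric]; exact h3)
  rw [ss', mul_assoc, E_mul] at h1
  exact hN h1

lemma comm_g (hrt2 : M r t = 2) (g : W) :
    g * cs.simple t * cs.simple r * cs.simple t = g * cs.simple r := by
  rw [mul_assoc g, ← comm_of_two (cs := cs) hrt2, ← mul_assoc, ss']

/-- `t ∈ D (g' s)` with `g' = g v t` gives `t ∈ D (g (v s))` -/
lemma Q_step (hst : s ≠ t) (h4 : 4 ≤ M s t) {g v : W}
    (hmin : g * v * cs.simple t ∈ minRep cs ({r, s} : Set B))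
    (hN : ¬ RD cs (g * (v * cs.simple s)) t) :
    ¬ RD cs (g * v * cs.simple t * cs.simple s) t := by
  intro h
  have hs' : RD cs (g * v * cs.simple t * cs.simple s) s := by
    apply rd_of_not
    intro h'
    have := hmin s (by simp)
    unfold RD at h'
    omega
  have h5 := right_four hst hs' h h4
  rw [ss', ss', mul_assoc] at h5
  exact hN h5

lemma one_not {J : Set B} (ht : t ∉ J) {w : W} (hw : w ∈ parab cs J) : ¬ RD cs (1 * w) t := by
  rw [one_mul]
  intro h
  exact ht (desc_mem hw h)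

lemma strC1 {φ : W → ℝ} (hφ : IsW cs φ) {C : ℝ}
    (hb : ∀ g, φ g ≤ C) (ht : t ∉ ({r, s} : Set B)) (hrs : r ≠ s)
    (hrt2 : M r t = 2) (j : ℕ) (hL : 2 * j + 3 < M s r) (h4 : 4 ≤ M s t) :
    φ (E cs s r (2 * j + 3)) + φ (cs.simple t) ≤ 0 := by
  obtain ⟨hrt, hst⟩ := ne_of_notMem ht
  have hr : r ∈ ({r, s} : Set B) := by simp
  have hs : s ∈ ({r, s} : Set B) := by simp
  apply straight_le hφ hb (E_mem hs hr _) (fun g => ¬ RD cs (g * cs.simple s) t)
  · exact one_not ht (simple_mem_parab hs)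
  · intro g hg hQ
    have hN : ¬ RD cs (g * E cs r s (2 * j + 2)) t := by
      intro h
      have h1 := strip ht hg (E_mem hr hs _) (E_rd hrs (k := 2 * j + 1)
        (by rw [M.symmetric]; omega)) h
      rw [E_mul] at h1
      have h2 := chain ht hr hs hrs hg j 1 (by omega)
        (by rw [show 1 + 2 * j = 2 * j + 1 by ring]; exact h1)
      rw [E_one] at h2
      exact hQ h2
    obtain ⟨d1, hmin⟩ := from_N ht hrs hrt2 (by omega) (k := 2 * j + 2) hL hg hN
    refine ⟨d1, hmin, ?_⟩
    apply Q_step hst h4 hmin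
    rw [E_mul]
    exact hN

/-- no descent `s` of `g r t` -/
lemma no_grt (ht : t ∉ ({r, s} : Set B)) (hrs : r ≠ s) (hrt2 : M r t = 2) {L : ℕ}
    (hL : L + 1 < M s r) {g : W}
    (hQ : g = 1 ∨ ∃ g0 ∈ minRep cs ({r, s} : Set B), g = g0 * E cs s r L * cs.simple t) :
    ¬ RD cs (g * cs.simple r * cs.simple t) s := by
  obtain ⟨hrt, hst⟩ := ne_of_notMem ht
  have hr : r ∈ ({r, s} : Set B) := by simp
  have hs : s ∈ ({r, s} : Set B) := by simp
  intro h
  rcases hQ with rfl | ⟨g0, hg0, rfl⟩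
  · rw [one_mul] at h
    have h1 : cs.simple r * cs.simple t ∈ parab cs ({r, t} : Set B) :=
      mul_mem (simple_mem_parab (by simp)) (simple_mem_parab (by simp))
    rcases desc_mem h1 h with h2 | h2
    · exact hrs h2.symm
    · exact hst h2
  · rw [comm_g hrt2, mul_assoc g0, ← E_succ (cs := cs) r s L] at h
    have h1 := (rd_mul hg0 (E_mem hr hs _) hs).1 h
    have h2 := full_len hrs (E_rd hrs (k := L) (by rw [M.symmetric]; omega)) h1 (M r s) le_rfl
    rw [E_len hrs (by rw [M.symmetric]; omega), M.symmetric r s] at h2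
    omega

lemma strC2 {φ : W → ℝ} (hφ : IsW cs φ) {C : ℝ}
    (hb : ∀ g, φ g ≤ C) (ht : t ∉ ({r, s} : Set B)) (hrs : r ≠ s)
    (hrt2 : M r t = 2) (j : ℕ) (hL : 2 * j + 4 ≤ M s r) (h3 : 3 ≤ M s t)
    (h4 : j = 0 → 4 ≤ M s t) :
    φ (E cs s r (2 * j + 2)) + φ (cs.simple t) ≤ 0 := by
  obtain ⟨hrt, hst⟩ := ne_of_notMem ht
  have hr : r ∈ ({r, s} : Set B) := by simp
  have hs : s ∈ ({r, s} : Set B) := by simp
  have hE2 : cs.simple r * cs.simple s = E cs s r 2 := (E_two s r).symm
  apply straight_le hφ hb (E_mem hs hr _) (fun g => g = 1 ∨ ∃ g0 ∈ minRep cs ({r, s} : Set B),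
    g = g0 * E cs s r (2 * j + 2) * cs.simple t)
  · exact Or.inl rfl
  · intro g hg hQ
    have hno := no_grt ht hrs hrt2 (by omega) hQ
    -- not `t ∈ D (g r s)`
    have hK : ¬ RD cs (g * E cs s r 2) t := by
      intro h
      have h1 : RD cs (g * E cs s r 2) s :=
        (rd_mul hg (E_mem hs hr _) hs).2 (E_rd hrs.symm (k := 1) (by omega))
      have h2 := right_c hst h1 h h3
      rw [mul_assoc g, E_mul, E_one] at h2
      exact hno h2
    rcases Nat.eq_zero_or_pos j with rfl | hj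
    · have d1 : ¬ RD cs (g * E cs s r (2 * 0 + 2)) t := hK
      have hmin : g * E cs s r (2 * 0 + 2) * cs.simple t ∈ minRep cs ({r, s} : Set B) := by
        apply step_min' ht rfl hrt2 hg (E_mem hs hr _) (not_rd_r hrs (by omega) (by omega)) d1
        intro h
        have h1 := right_four hst.symm (rd_of_not d1) h (by rw [M.symmetric]; exact h4 rfl)
        rw [ss', mul_assoc g, E_mul] at h1
        simp only [E_one, mul_zero, zero_add] at h1
        exact hno h1
      exact ⟨d1, hmin, Or.inr ⟨g, hg, rfl⟩⟩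
    · obtain ⟨i, rfl⟩ : ∃ i, j = i + 1 := ⟨j - 1, by omega⟩
      have hN : ¬ RD cs (g * E cs r s (2 * (i + 1) + 1)) t := by
        intro h
        have h1 := strip ht hg (E_mem hr hs _) (E_rd hrs (k := 2 * (i + 1))
          (by rw [M.symmetric]; omega)) h
        rw [E_mul] at h1
        exact hK (chain ht hr hs hrs hg i 2 (by omega)
          (by rw [show 2 + 2 * i = 2 * (i + 1) by ring]; exact h1))
      obtain ⟨d1, hmin⟩ := from_N ht hrs hrt2 h3 (k := 2 * (i + 1) + 1) (by omega) hg hN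
      exact ⟨d1, hmin, Or.inr ⟨g, hg, rfl⟩⟩

lemma strC3 {φ : W → ℝ} (hφ : IsW cs φ) {C : ℝ}
    (hb : ∀ g, φ g ≤ C) (ht : t ∉ ({r, s} : Set B)) (hrs : r ≠ s)
    (hrt2 : M r t = 2) (j : ℕ) (hL : 2 * j + 3 = M s r) (h4 : 4 ≤ M s t)
    (h6 : j = 0 → 6 ≤ M s t) :
    φ (E cs s r (2 * j + 2)) + φ (cs.simple t) ≤ 0 := by
  obtain ⟨hrt, hst⟩ := ne_of_notMem ht
  have hr : r ∈ ({r, s} : Set B) := by simp
  have hs : s ∈ ({r, s} : Set B) := by simp
  -- `v r s`
  have hvr : E cs s r (2 * j + 2) * cs.simple r * cs.simple s = E cs r s (2 * j + 2) := by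
    have h1 : E cs s r (2 * j + 2) * cs.simple r = E cs s r (2 * j + 2 + 1) := by
      rw [← E_succ]
      have := E_braid (cs := cs) s r
      rw [← hL] at this
      exact this.symm
    rw [h1, E_mul]
  -- from `t ∈ D (g0 (v r s))` to `t ∈ D (g0 s)`
  have hdown : ∀ g0 ∈ minRep cs ({r, s} : Set B), RD cs (g0 * E cs r s (2 * j + 2)) t →
      RD cs (g0 * cs.simple s) t := by
    intro g0 hg0 h
    have h1 := strip ht hg0 (E_mem hr hs _) (E_rd hrs (k := 2 * j + 1)
      (by rw [M.symmetric]; omega)) h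
    rw [E_mul] at h1
    have h2 := chain ht hr hs hrs hg0 j 1 (by omega)
      (by rw [show 1 + 2 * j = 2 * j + 1 by ring]; exact h1)
    rwa [E_one] at h2
  apply straight_le hφ hb (E_mem hs hr _) (fun g => ¬ RD cs (g * cs.simple s) t ∧
    (g = 1 ∨ ∃ g0 ∈ minRep cs ({r, s} : Set B), g = g0 * E cs s r (2 * j + 2) * cs.simple t ∧
      ¬ RD cs (g0 * cs.simple s) t))
  · exact ⟨one_not ht (simple_mem_parab hs), Or.inl rfl⟩
  · intro g hg hQ
    obtain ⟨q1, q2⟩ := hQ
    -- computation
    have hcomp : ∀ g0 : W, g0 * E cs s r (2 * j + 2) * cs.simple t * cs.simple r * cs.simple t *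
        cs.simple s = g0 * E cs r s (2 * j + 2) := by
      intro g0
      rw [comm_g hrt2, mul_assoc g0, mul_assoc g0, hvr]
    have hK : ¬ RD cs (g * E cs s r 2) t := by
      intro h
      rcases q2 with rfl | ⟨g0, hg0, hgg, hq0⟩
      · exact one_not ht (E_mem hs hr _) h
      · have h1 : RD cs (g * E cs s r 2) s :=
          (rd_mul hg (E_mem hs hr _) hs).2 (E_rd hrs.symm (k := 1) (by omega))
        have h2 := right_four hst h1 h h4
        rw [mul_assoc g, E_mul, E_one, hgg, hcomp] at h2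
        exact hq0 (hdown g0 hg0 h2)
    rcases Nat.eq_zero_or_pos j with rfl | hj
    · have h6' := h6 rfl
      have d1 : ¬ RD cs (g * E cs s r (2 * 0 + 2)) t := hK
      have hmin : g * E cs s r (2 * 0 + 2) * cs.simple t ∈ minRep cs ({r, s} : Set B) := by
        apply step_min' ht rfl hrt2 hg (E_mem hs hr _) (not_rd_r hrs (by omega) (by omega)) d1
        intro h
        rcases q2 with rfl | ⟨g0, hg0, hgg, hq0⟩
        · have h1 := full_len hst h (rd_of_not d1) 6 h6'
          have h2 := cs.length_mul_le (1 * E cs s r (2 * 0 + 2)) (cs.simple t)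
          rw [one_mul, E_len hrs.symm (by omega), cs.length_simple] at h2
          rw [one_mul] at h1
          omega
        · have h1 := right_five hst.symm (rd_of_not d1) h (by rw [M.symmetric]; omega)
          rw [ss', mul_assoc g, E_mul] at h1
          have e1 : E cs r s (2 * 0 + 1) = cs.simple r := by simp [E]
          rw [e1, hgg, hcomp] at h1
          exact hq0 (hdown g0 hg0 h1)
      refine ⟨d1, hmin, ?_, Or.inr ⟨g, hg, rfl, q1⟩⟩
      intro h
      have hs' : RD cs (g * E cs s r (2 * 0 + 2) * cs.simple t * cs.simple s) s := by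
        apply rd_of_not
        intro h'
        have := hmin s (by simp)
        unfold RD at h'
        omega
      rcases q2 with rfl | ⟨g0, hg0, hgg, hq0⟩
      · have h1 := full_len hst hs' h 6 h6'
        have h2 := cs.length_mul_le (1 * E cs s r (2 * 0 + 2)) (cs.simple t)
        have h3 := cs.length_mul_le (1 * E cs s r (2 * 0 + 2) * cs.simple t) (cs.simple s)
        rw [one_mul, E_len hrs.symm (by omega), cs.length_simple] at h2
        rw [one_mul, cs.length_simple] at h3
        rw [one_mul] at h1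
        omega
      · have h1 := right_six hst hs' h h6'
        rw [ss', ss', mul_assoc g, E_mul] at h1
        have e1 : E cs r s (2 * 0 + 1) = cs.simple r := by simp [E]
        rw [e1, hgg, hcomp] at h1
        exact hq0 (hdown g0 hg0 h1)
    · obtain ⟨i, rfl⟩ : ∃ i, j = i + 1 := ⟨j - 1, by omega⟩
      have hN : ¬ RD cs (g * E cs r s (2 * (i + 1) + 1)) t := by
        intro h
        have h1 := strip ht hg (E_mem hr hs _) (E_rd hrs (k := 2 * (i + 1))
          (by rw [M.symmetric]; omega)) h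
        rw [E_mul] at h1
        exact hK (chain ht hr hs hrs hg i 2 (by omega)
          (by rw [show 2 + 2 * i = 2 * (i + 1) by ring]; exact h1))
      obtain ⟨d1, hmin⟩ := from_N ht hrs hrt2 (by omega) (k := 2 * (i + 1) + 1) (by omega) hg hN
      refine ⟨d1, hmin, ?_, Or.inr ⟨g, hg, rfl, q1⟩⟩
      apply Q_step hst h4 hmin
      rw [E_mul]
      exact hN

end common

end Pool.Agent.T6.H70.CX
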