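import Pool.Agent.T6.H70.CoxS2

set_option autoImplicit false

namespace Pool.Agent.T6.H70.CX

open Pool.Agent.R330.BP Pool.Agent.Helper741

variable {B : Type*} {M : CoxeterMatrix B} {W : Type*} [Group W] {cs : CoxeterSystem M W}

section common

variable [Fintype B] [DecidableEq B] {t r s : B}

lemma all_pos {φ : W → ℝ} (hφ : IsW cs φ) {C : ℝ} (hb : ∀ g, φ g ≤ C)
    (hinf : ¬ Finite (parab cs (insert t ({r, s} : Set B))))
    (h1 : 0 < φ (cs.simple t)) (h2 : 0 < φ (cs.simple r)) (h3 : 0 < φ (cs.simple s)) : False := by
  apply hinf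
  apply fin_of_pos hφ hb
  intro i hi
  rcases Set.mem_insert_iff.1 hi with rfl | hi
  · exact h1
  · rcases Set.mem_insert_iff.1 hi with rfl | hi
    · exact h2
    · rw [Set.mem_singleton_iff] at hi
      rw [hi]
      exact h3

lemma caseC {φ : W → ℝ} (hφ : IsW cs φ) {C : ℝ} (hb : ∀ g, φ g ≤ C)
    (ht : t ∉ ({r, s} : Set B)) (hrs : r ≠ s) (hrt2 : M r t = 2) (h3a : 3 ≤ M s r)
    (h3c : 3 ≤ M s t) (h1 : M s r = 3 → 6 ≤ M s t) (h2 : M s r = 4 → 4 ≤ M s t)
    (h3 : M s t = 3 → 6 ≤ M s r)
    (hinf : ¬ Finite (parab cs (insert t ({r, s} : Set B)))) {x v u : W}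
    (hx : x ∈ parab cs ({r, s} : Set B)) (hbest : ∀ y ∈ parab cs ({r, s} : Set B), φ y ≤ φ x)
    (hstrict : ∀ s1 ∈ ({r, s} : Set B), ∀ y ∈ parab cs (({r, s} : Set B) \ {s1}), φ y < φ x)
    (hxv : x = v * u) (hv : v ∈ parab cs ({r, s} : Set B))
    (hvK : v ∈ minRep cs (Kt M ({r, s} : Set B) t))
    (hu : u ∈ parab cs (Kt M ({r, s} : Set B) t)) : φ v + φ (cs.simple t) ≤ 0 := by
  obtain ⟨hrt, hst⟩ := ne_of_notMem ht
  have hr : r ∈ ({r, s} : Set B) := by simp
  have hs : s ∈ ({r, s} : Set B) := by simp
  have hMrs : M r s = M s r := M.symmetric r s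
  have hpos : 0 < φ x := by
    have := hstrict r hr 1 (one_mem _)
    rwa [hφ.one] at this
  have hAx : φ (cs.simple s) < φ x := hstrict r hr _ (simple_mem_parab ⟨hs, fun h => hrs h.symm⟩)
  have hDx : φ (cs.simple r) < φ x := hstrict s hs _ (simple_mem_parab ⟨hr, hrs⟩)
  -- the right factor
  have hKsub : Kt M ({r, s} : Set B) t ⊆ {r} := by
    intro i hi
    rcases hi.1 with h | h
    · exact h
    · rw [Set.mem_singleton_iff] at h
      have := hi.2
      rw [h] at this
      omega
  have hucase := parab_singleton_cases (parab_mono hKsub hu)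
  have hvr : ¬ RD cs v r := by
    intro h
    have := hvK r ⟨hr, hrt2⟩
    unfold RD at h
    omega
  -- classification of `v`
  have hlv : cs.length v ≤ M s r := by
    rw [← hMrs]
    exact len_le_M hrs (by omega) hv
  have hv2 : v = E cs s r (cs.length v) := by
    rcases dih hrs _ v rfl hv with h | h
    · rcases Nat.eq_zero_or_pos (cs.length v) with h0 | h0
      · rw [h0] at h ⊢
        exact h
      · exfalso
        apply hvr
        rw [h]
        obtain ⟨k, hk⟩ : ∃ k, cs.length v = k + 1 := ⟨cs.length v - 1, by omega⟩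
        rw [hk]
        exact E_rd hrs (by omega)
    · exact h
  set L := cs.length v with hL
  have hLa : L < M s r := by
    rcases lt_or_eq_of_le hlv with h | h
    · exact h
    · exfalso
      apply hvr
      rw [hv2, h, E_braid]
      obtain ⟨k, hk⟩ : ∃ k, M s r = k + 1 := ⟨M s r - 1, by omega⟩
      rw [hk]
      exact E_rd hrs (by omega)
  -- `A + D > 0`
  have hphi : ∀ (i j : B), i ≠ j → M i j = M s r → ∀ n, n ≤ M s r →
      φ (cs.simple i) + φ (cs.simple j) ≤ 0 → φ (cs.simple i) < φ x → x = E cs i j n → False := by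
    intro i j hij hM n hn hS hi hxe
    rcases Nat.even_or_odd' n with ⟨m, rfl | rfl⟩
    · rw [hxe, phi_even hφ hij m (by omega)] at hpos
      have : (m : ℝ) * (φ (cs.simple i) + φ (cs.simple j)) ≤ 0 :=
        mul_nonpos_of_nonneg_of_nonpos (Nat.cast_nonneg _) hS
      linarith
    · have h4 := phi_odd hφ hij m (by omega)
      rw [← hxe] at h4
      have : (m : ℝ) * (φ (cs.simple i) + φ (cs.simple j)) ≤ 0 :=
        mul_nonpos_of_nonneg_of_nonpos (Nat.cast_nonneg _) hS
      linarith
  have hxl : cs.length x ≤ M s r := by
    rw [← hMrs]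
    exact len_le_M hrs (by omega) hx
  have hS : 0 < φ (cs.simple s) + φ (cs.simple r) := by
    by_contra hS
    push Not at hS
    rcases dih hrs _ x rfl hx with h | h
    · exact hphi r s hrs hMrs _ hxl (by linarith) hDx h
    · exact hphi s r hrs.symm rfl _ hxl hS hAx h
  -- the length of `x`
  have hk : M s r ≤ cs.length x + 1 := by
    by_contra hlt
    push Not at hlt
    rcases dih hrs _ x rfl hx with h | h
    · have h4 := phi_E2 hφ hrs (k := cs.length x) (by omega)
      rw [← h] at h4
      have h5 := hbest (E cs r s (cs.length x + 2)) (E_mem hr hs _)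
      linarith
    · have h4 := phi_E2 hφ hrs.symm (k := cs.length x) (by omega)
      rw [← h] at h4
      have h5 := hbest (E cs s r (cs.length x + 2)) (E_mem hs hr _)
      linarith
  have hxform : (u = 1 ∧ x = E cs s r L) ∨ (u = cs.simple r ∧ x = E cs r s (L + 1)) := by
    rcases hucase with h | h
    · left
      exact ⟨h, by rw [hxv, h, mul_one]; exact hv2⟩
    · right
      refine ⟨h, ?_⟩
      rw [hxv, h, E_succ, ← hv2]
  have hxlen : cs.length x = L ∨ (cs.length x = L + 1 ∧ x = E cs r s (L + 1)) := by
    rcases hxform with ⟨_, h⟩ | ⟨_, h⟩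
    · left
      rw [h, E_len hrs.symm hLa.le]
    · right
      refine ⟨?_, h⟩
      rw [h, E_len hrs (by omega)]
  have hLcases : L + 1 = M s r ∨ (L + 2 = M s r ∧ x = E cs r s (L + 1)) := by
    rcases hxlen with h | ⟨h, h'⟩
    · left; omega
    · rcases Nat.lt_or_ge (L + 1) (M s r) with h5 | h5
      · right; exact ⟨by omega, h'⟩
      · left; omega
  rw [hv2]
  rcases hLcases with hL1 | ⟨hL2, hxe⟩
  · rcases Nat.even_or_odd' (M s r) with ⟨m, hm | hm⟩
    · -- `a` even
      obtain ⟨j, hj⟩ : ∃ j, m = j + 2 := ⟨m - 2, by omega⟩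
      have hLj : L = 2 * j + 3 := by omega
      rcases Nat.lt_or_ge (M s t) 4 with hc | hc
      · -- `c = 3`
        exfalso
        have hc3 : M s t = 3 := by omega
        have h6a := h3 hc3
        have hr' : r ∉ ({t, s} : Set B) := by
          intro h
          rcases h with h | h
          · exact hrt h
          · exact hrs h
        have hkey := strC3 (cs := cs) hφ hb (t := r) (r := t) (s := s) hr' hst.symm
          (by rw [M.symmetric]; exact hrt2) 0 (by omega) (by omega) (fun _ => h6a)
        have e1 : φ (E cs s t (2 * 0 + 2)) = φ (cs.simple s) + φ (cs.simple t) := by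
          have := phi_even hφ (i := s) (j := t) hst 1 (by omega)
          simpa using this
        rw [e1] at hkey
        have e2 := phi_eq_of_odd hφ hst (by rw [hc3]; decide)
        have hA : φ (cs.simple s) < 0 := by linarith
        rcases hxform with ⟨_, h⟩ | ⟨_, h⟩
        · have h5 := phi_E hφ hrs.symm (k := 2 * j + 2) (by omega)
          have h6 := hbest (E cs r s (2 * j + 2)) (E_mem hr hs _)
          rw [hLj] at h
          rw [show 2 * j + 3 = 2 * j + 2 + 1 by ring] at h
          rw [← h] at h5
          linarith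
        · have h7 : x = E cs s r (M s r) := by
            rw [h, hL1, E_braid]
          have h5 := phi_E hφ hrs.symm (k := L) (by omega)
          have h6 := hbest (E cs r s L) (E_mem hr hs _)
          rw [← hL1] at h7
          rw [← h7] at h5
          linarith
      · rw [hLj]
        exact strC1 hφ hb ht hrs hrt2 j (by omega) hc
    · -- `a` odd
      obtain ⟨j, hj⟩ : ∃ j, m = j + 1 := ⟨m - 1, by omega⟩
      have hLj : L = 2 * j + 2 := by omega
      have hAD := phi_eq_of_odd hφ hrs.symm (by rw [hm]; exact ⟨m, rfl⟩)
      have hA : 0 < φ (cs.simple s) := by linarith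
      have hceven : ¬ Odd (M s t) := by
        intro hodd
        have := phi_eq_of_odd hφ hst hodd
        exact all_pos hφ hb hinf (by linarith) (by linarith) hA
      have hc4 : 4 ≤ M s t := by
        rcases Nat.lt_or_ge (M s t) 4 with hc | hc
        · exfalso
          apply hceven
          have : M s t = 3 := by omega
          rw [this]
          decide
        · exact hc
      rw [hLj]
      exact strC3 hφ hb ht hrs hrt2 j (by omega) hc4 (fun hj0 => h1 (by omega))
  · -- `L = a - 2`
    have h4 := phi_E hφ hrs.symm (k := L + 1) (by omega)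
    rw [← hxe] at h4
    have h5 := hbest (E cs s r (L + 1 + 1)) (E_mem hs hr _)
    have hA : φ (cs.simple s) ≤ 0 := by linarith
    rcases Nat.even_or_odd' (M s r) with ⟨m, hm | hm⟩
    · obtain ⟨j, hj⟩ : ∃ j, m = j + 2 := ⟨m - 2, by omega⟩
      have hLj : L = 2 * j + 2 := by omega
      rw [hLj]
      exact strC2 hφ hb ht hrs hrt2 j (by omega) h3c (fun hj0 => h2 (by omega))
    · exfalso
      have hAD := phi_eq_of_odd hφ hrs.symm (by rw [hm]; exact ⟨m, rfl⟩)
      linarith

lemma caseB {φ : W → ℝ} (hφ : IsW cs φ) {C : ℝ} (hb : ∀ g, φ g ≤ C)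
    (ht : t ∉ ({r, s} : Set B)) (hrs : r ≠ s) (h2 : M r s = 2) (hr3 : 3 ≤ M r t)
    (hs3 : 3 ≤ M s t)
    (hinf : ¬ Finite (parab cs (insert t ({r, s} : Set B)))) {x v u : W}
    (hx : x ∈ parab cs ({r, s} : Set B))
    (hstrict : ∀ s1 ∈ ({r, s} : Set B), ∀ y ∈ parab cs (({r, s} : Set B) \ {s1}), φ y < φ x)
    (hxv : x = v * u)
    (hu : u ∈ parab cs (Kt M ({r, s} : Set B) t)) : φ v + φ (cs.simple t) ≤ 0 := by
  obtain ⟨hrt, hst⟩ := ne_of_notMem ht
  have hr : r ∈ ({r, s} : Set B) := by simp
  have hs : s ∈ ({r, s} : Set B) := by simp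
  have hpos : 0 < φ x := by
    have := hstrict r hr 1 (one_mem _)
    rwa [hφ.one] at this
  have hAx : φ (cs.simple s) < φ x := hstrict r hr _ (simple_mem_parab ⟨hs, fun h => hrs h.symm⟩)
  have hDx : φ (cs.simple r) < φ x := hstrict s hs _ (simple_mem_parab ⟨hr, hrs⟩)
  have hKsub : Kt M ({r, s} : Set B) t ⊆ ∅ := by
    intro i hi
    rcases hi.1 with h | h
    · have := hi.2
      rw [h] at this
      omega
    · rw [Set.mem_singleton_iff] at h
      have := hi.2
      rw [h] at this
      omega
  have hu1 := parab_empty_eq (parab_mono hKsub hu)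
  have hvx : v = x := by rw [hxv, hu1, mul_one]
  have hcomm := comm_of_two (cs := cs) h2
  have hxl : cs.length x ≤ 2 := by
    rw [← h2]
    exact len_le_M hrs (by omega) hx
  have hxe : x = cs.simple r * cs.simple s := by
    have hd := dih hrs _ x rfl hx
    have h012 : cs.length x = 0 ∨ cs.length x = 1 ∨ cs.length x = 2 := by omega
    rcases h012 with h | h | h
    · exfalso
      have := cs.length_eq_zero_iff.1 h
      rw [this, hφ.one] at hpos
      exact lt_irrefl _ hpos
    · exfalso
      rw [h] at hd
      rcases hd with h' | h'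
      · rw [E_one] at h'
        rw [h'] at hDx
        exact lt_irrefl _ hDx
      · rw [E_one] at h'
        rw [h'] at hAx
        exact lt_irrefl _ hAx
    · rw [h] at hd
      rcases hd with h' | h'
      · rw [E_two] at h'
        rw [h', hcomm]
      · rw [E_two] at h'
        exact h'
  have hphi : φ x = φ (cs.simple r) + φ (cs.simple s) := by
    rw [hxe]
    apply hφ
    rw [← E_two, E_len hrs.symm (by rw [M.symmetric]; omega), cs.length_simple, cs.length_simple]
  have hrpos : 0 < φ (cs.simple r) := by linarith
  have hspos : 0 < φ (cs.simple s) := by linarith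
  have hre : ¬ Odd (M r t) := by
    intro hodd
    have := phi_eq_of_odd hφ hrt hodd
    exact all_pos hφ hb hinf (by linarith) hrpos hspos
  have hse : ¬ Odd (M s t) := by
    intro hodd
    have := phi_eq_of_odd hφ hst hodd
    exact all_pos hφ hb hinf (by linarith) hrpos hspos
  have hr4 : 4 ≤ M r t := by
    rcases Nat.lt_or_ge (M r t) 4 with hc | hc
    · exfalso
      apply hre
      have : M r t = 3 := by omega
      rw [this]; decide
    · exact hc
  have hs4 : 4 ≤ M s t := by
    rcases Nat.lt_or_ge (M s t) 4 with hc | hc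
    · exfalso
      apply hse
      have : M s t = 3 := by omega
      rw [this]; decide
    · exact hc
  rw [hvx, hxe]
  exact strB hφ hb ht hrs h2 hr4 hs4

end common

/-- triangles -/
def Tri (M : CoxeterMatrix B) (J : Set B) (t : B) : Prop :=
  ∃ r s : B, r ≠ s ∧ J = {r, s} ∧
    M r s * M r t + M r t * M s t + M s t * M r s ≤ M r s * M r t * M s t

lemma two_le_M {i j : B} (hij : i ≠ j) (h0 : M i j ≠ 0) : 2 ≤ M i j := by
  have := M.off_diagonal i j hij
  omega

/-- the main theorem -/
theorem main [Fintype B] [DecidableEq B] (φ : W → ℝ) (hφ : IsW cs φ) (C : ℝ) (hb : ∀ g, φ g ≤ C)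
    (H : ∀ (J : Set B) (t : B), t ∉ J → Finite (parab cs J) → ¬ Finite (parab cs (insert t J)) →
      (∀ s ∈ J, M s t ≠ 0) → Tri M J t ∨ ∃ K : Set B, Finite (parab cs K) ∧ ∃ z ∈ parab cs K,
        ∀ y ∈ parab cs (insert t J), φ y ≤ φ z) :
    ∃ J : Set B, Finite (parab cs J) ∧ ∃ x ∈ parab cs J, ∀ y, φ y ≤ φ x := by
  apply core2 φ hφ C hb
  intro J t x v u ht hJ hinf hM hx hbest hstrict hxv hv hvK hu
  rcases H J t ht hJ hinf hM with ⟨r, s, hrs, hJe, hsum⟩ | ⟨K, hK, z, hz, hzz⟩
  · subst hJe
    have hr : r ∈ ({r, s} : Set B) := by simp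
    have hs : s ∈ ({r, s} : Set B) := by simp
    obtain ⟨hrt, hst⟩ := ne_of_notMem ht
    have hbestJ := hbest _ hJ
    have hrs0 : M r s ≠ 0 := M_ne_zero_of_finite (cs := cs) hJ hr hs
    have a2 := two_le_M hrs hrs0
    have b2 := two_le_M hrt (hM r hr)
    have c2 := two_le_M hst (hM s hs)
    have hsym : M s r = M r s := M.symmetric s r
    generalize ha : M r s = a at *
    generalize hbb : M r t = b at *
    generalize hcc : M s t = c at *
    by_cases ea : a = 2
    · subst ea
      have hb3 : 3 ≤ b := by
        by_contra h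
        have : b = 2 := by omega
        subst this
        omega
      have hc3 : 3 ≤ c := by
        by_contra h
        have : c = 2 := by omega
        subst this
        omega
      exact caseB hφ hb ht hrs ha (by omega) (by omega) hinf hx hstrict hxv hu
    · by_cases eb : b = 2
      · subst eb
        have hc3 : 3 ≤ c := by
          by_contra h
          have : c = 2 := by omega
          subst this
          omega
        apply caseC hφ hb ht hrs hbb (by omega) (by omega) _ _ _ hinf hx hbestJ hstrict hxv hv hvK hu
        · intro h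
          rw [hsym] at h
          subst h
          omega
        · intro h
          rw [hsym] at h
          subst h
          omega
        · intro h
          rw [hcc] at h
          subst h
          omega
      · by_cases ec : c = 2
        · subst ec
          have hpair : ({r, s} : Set B) = {s, r} := Set.pair_comm r s
          rw [hpair] at ht hinf hx hbestJ hstrict hv hvK hu
          apply caseC hφ hb ht hrs.symm hcc (by omega) (by omega) _ _ _ hinf hx hbestJ hstrict
            hxv hv hvK hu
          · intro h
            rw [ha] at h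
            subst h
            omega
          · intro h
            rw [ha] at h
            subst h
            omega
          · intro h
            rw [hbb] at h
            subst h
            omega
        · apply caseA hφ hb ht hJ hinf _ _ hx hbestJ hstrict hxv hu
          · intro i hi j hj hij
            rcases hi with rfl | hi
            · rcases hj with rfl | hj
              · exact absurd rfl hij
              · rw [Set.mem_singleton_iff] at hj
                subst hj
                omega
            · rw [Set.mem_singleton_iff] at hi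
              subst hi
              rcases hj with rfl | hj
              · omega
              · rw [Set.mem_singleton_iff] at hj
                exact absurd hj.symm hij
          · intro i hi
            rcases hi with rfl | hi
            · omega
            · rw [Set.mem_singleton_iff] at hi
              subst hi
              omega
  · obtain ⟨h1, h2⟩ := vt_min ht hv hvK
    have e4 : φ (v * cs.simple t * x) = φ v + φ (cs.simple t) + φ x := by
      rw [hφ _ _ (len_mul h1 hx), hφ.simple _ _ h2]
    have e5 := (hzz _ (parab_insert_mem (t := t) hv hx)).trans (hbest K hK z hz)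
    linarith

end Pool.Agent.T6.H70.CX
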