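import Pool.Agent.T6.H70.CoxFC

set_option autoImplicit false

/-! Weight functions on Coxeter groups, II: triangle subgroups. -/

namespace Pool.Agent.T6.H70.CX

open Pool.Agent.R330.BP Pool.Agent.Helper741

variable {B : Type*} {M : CoxeterMatrix B} {W : Type*} [Group W] {cs : CoxeterSystem M W}

/-- the core theorem -/
theorem core2 [Fintype B] [DecidableEq B] (φ : W → ℝ) (hφ : IsW cs φ) (C : ℝ) (hb : ∀ g, φ g ≤ C)
    (H : ∀ (J : Set B) (t : B) (x v u : W), t ∉ J → Finite (parab cs J) →
      ¬ Finite (parab cs (insert t J)) → (∀ s ∈ J, M s t ≠ 0) → x ∈ parab cs J →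
      (∀ J' : Set B, Finite (parab cs J') → ∀ y ∈ parab cs J', φ y ≤ φ x) →
      (∀ s1 ∈ J, ∀ y ∈ parab cs (J \ {s1}), φ y < φ x) →
      x = v * u → v ∈ parab cs J → v ∈ minRep cs (Kt M J t) → u ∈ parab cs (Kt M J t) →
      φ v + φ (cs.simple t) ≤ 0) :
    ∃ J : Set B, Finite (parab cs J) ∧ ∃ x ∈ parab cs J, ∀ y, φ y ≤ φ x := by
  -- the finite set of pairs
  let V : Set (Set B × W) := {p | Finite (parab cs p.1) ∧ p.2 ∈ parab cs p.1}
  have hVfin : V.Finite := by
    have : V ⊆ ⋃ J ∈ {J : Set B | Finite (parab cs J)}, ((fun w : W => (J, w)) '' (parab cs J : Set W)) := by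
      rintro ⟨J, w⟩ ⟨h1, h2⟩
      simp only [Set.mem_iUnion]
      exact ⟨J, h1, w, h2, rfl⟩
    refine Set.Finite.subset (Set.Finite.biUnion (Set.toFinite _) ?_) this
    intro J hJ
    have hJ' : Finite (parab cs J) := hJ
    exact (Set.toFinite (parab cs J : Set W)).image _
  have hVne : V.Nonempty := by
    refine ⟨(∅, 1), ?_, one_mem _⟩
    have : parab cs (∅ : Set B) = ⊥ := by
      unfold parab; simp
    show Finite (parab cs (∅ : Set B))
    rw [this]
    infer_instance
  obtain ⟨p0, hp0, hmax⟩ := Set.exists_max_image V (fun p => φ p.2) hVfin hVne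
  let V' : Set (Set B × W) := {p | p ∈ V ∧ φ p.2 = φ p0.2}
  have hV'fin : V'.Finite := hVfin.subset fun p hp => hp.1
  obtain ⟨p1, hp1, hmin⟩ := Set.exists_min_image V' (fun p => p.1.ncard) hV'fin ⟨p0, hp0, rfl⟩
  obtain ⟨J, x⟩ := p1
  obtain ⟨⟨hJ, hx⟩, hxe⟩ := hp1
  simp only at hJ hx hxe
  have hbest : ∀ J' : Set B, Finite (parab cs J') → ∀ y ∈ parab cs J', φ y ≤ φ x := by
    intro J' hJ' y hy
    rw [hxe]
    exact hmax (J', y) ⟨hJ', hy⟩
  have hstrict : ∀ s1 ∈ J, ∀ y ∈ parab cs (J \ {s1}), φ y < φ x := by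
    intro s1 hs1 y hmem
    have hsub : J \ {s1} ⊆ J := Set.diff_subset
    have hfin : Finite (parab cs (J \ {s1})) :=
      Finite.of_injective (fun w : parab cs (J \ {s1}) => (⟨w.1, parab_mono hsub w.2⟩ : parab cs J))
        (by
          intro a b hab
          apply Subtype.ext
          exact congrArg (fun w : parab cs J => w.1) hab)
    refine lt_of_le_of_ne (hbest _ hfin y hmem) ?_
    intro hye
    have h1 := hmin (J \ {s1}, y) ⟨⟨hfin, hmem⟩, by
      show φ y = φ p0.2
      rw [hye, hxe]⟩
    simp only at h1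
    have h2 : (J \ {s1}).ncard < J.ncard := Set.ncard_sdiff_singleton_lt_of_mem hs1 (Set.toFinite J)
    omega
  have hfull : ∀ s1 ∈ J, x ∉ parab cs (J \ {s1}) := fun s1 hs1 hmem =>
    lt_irrefl _ (hstrict s1 hs1 x hmem)
  refine ⟨J, hJ, x, hx, ?_⟩
  -- key inequality
  have key : ∀ t, t ∉ J → ∀ v' ∈ parab cs J, v' ∈ minRep cs (Kt M J t) →
      φ v' + φ (cs.simple t) ≤ 0 := by
    intro t ht v' hv' hv'K
    have hKJ : Kt M J t ⊆ J := fun s hs => hs.1
    obtain ⟨v, hvK, u, hu, hxv⟩ := exists_right (cs := cs) (Kt M J t) x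
    have huJ : u ∈ parab cs J := parab_mono hKJ hu
    have hvJ : v ∈ parab cs J := by
      have : v = x * u⁻¹ := by rw [hxv]; group
      rw [this]
      exact mul_mem hx (inv_mem huJ)
    have e1 : φ x = φ v + φ u := by
      rw [hxv]
      exact hφ _ _ (len_mul hvK hu)
    have e2 : φ (v' * u) = φ v' + φ u := hφ _ _ (len_mul hv'K hu)
    have e3 := hbest J hJ (v' * u) (mul_mem hv' huJ)
    have hle : φ v' ≤ φ v := by linarith
    suffices hs : φ v + φ (cs.simple t) ≤ 0 by linarith
    by_cases hinf : ∃ s1 ∈ J, M s1 t = 0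
    · obtain ⟨s1, hs1, hM⟩ := hinf
      have hv1 : v ∉ parab cs (J \ {s1}) := by
        intro hmem
        apply hfull s1 hs1
        rw [hxv]
        refine mul_mem hmem (parab_mono ?_ hu)
        intro s hs
        refine ⟨hs.1, ?_⟩
        rintro rfl
        have := hs.2
        omega
      have hp := pow_case hφ ht hM hvJ hvK hv1
      by_contra hpos
      push Not at hpos
      obtain ⟨n, hn⟩ := exists_nat_gt (C / (φ v + φ (cs.simple t)))
      rw [div_lt_iff₀ hpos] at hn
      have h1 := hb ((v * cs.simple t) ^ n)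
      rw [(hp n).2] at h1
      linarith
    · push Not at hinf
      obtain ⟨h1, h2⟩ := vt_min ht hvJ hvK
      have e4 : φ (v * cs.simple t * x) = φ v + φ (cs.simple t) + φ x := by
        rw [hφ _ _ (len_mul h1 hx), hφ.simple _ _ h2]
      have hmem := parab_insert_mem (t := t) hvJ hx
      by_cases hfin : Finite (parab cs (insert t J))
      · have e5 := hbest _ hfin _ hmem
        linarith
      · exact H J t x v u ht hJ hfin hinf hx hbest hstrict hxv hvJ hvK hu
  -- minimal representatives have nonpositive weight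
  have hneg : ∀ (n : ℕ) (h : W), cs.length h = n → h ∈ minRep cs J → φ h ≤ 0 := by
    intro n
    induction n using Nat.strong_induction_on with
    | _ n ih =>
      intro h hn hmin'
      by_cases h1 : h = 1
      · rw [h1, hφ.one]
      obtain ⟨t, ht⟩ := cs.exists_rightDescent_of_ne_one h1
      have ht' : cs.length (h * cs.simple t) < cs.length h := ht
      have htJ : t ∉ J := by
        intro htJ
        have := hmin' t htJ
        omega
      set h' := h * cs.simple t with hh'
      have hh : h = h' * cs.simple t := by rw [hh', ss']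
      obtain ⟨h'', hh'', v', hv', hdec⟩ := exists_right (cs := cs) J h'
      have l1 := len_mul hh'' hv'
      rw [← hdec] at l1
      have hv'K : v' ∈ minRep cs (Kt M J t) := by
        intro s hs
        by_contra hc
        have hne := cs.length_mul_simple_ne v' s
        have hd : cs.length (v' * cs.simple s) < cs.length v' := by omega
        have l2 := len_mul hh'' (mul_mem hv' (simple_mem_parab (cs := cs) hs.1))
        have hd2 : cs.length (h' * cs.simple s) < cs.length h' := by
          rw [hdec, mul_assoc, l2, ← hdec]; omega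
        have hcomm : cs.simple s * cs.simple t = cs.simple t * cs.simple s := by
          have h3 := cs.simple_mul_simple_pow s t
          rw [hs.2, pow_two] at h3
          have h4 : cs.simple s * cs.simple t = (cs.simple s * cs.simple t)⁻¹ :=
            eq_inv_of_mul_eq_one_left h3
          rw [mul_inv_rev, cs.inv_simple, cs.inv_simple] at h4
          exact h4
        have h5 : h * cs.simple s = h' * cs.simple s * cs.simple t := by
          have : h * cs.simple s = h' * cs.simple t * cs.simple s :=
            congrArg (fun z => z * cs.simple s) hh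
          rw [this, mul_assoc, ← hcomm, ← mul_assoc]
        have h6 := hmin' s hs.1
        rw [h5] at h6
        have h7 := cs.length_mul_le (h' * cs.simple s) (cs.simple t)
        rw [cs.length_simple] at h7
        omega
      have h8 := key t htJ v' hv' hv'K
      have hnd : ¬ cs.length (h' * cs.simple t) < cs.length h' := by
        rw [← hh]; omega
      have e1 : φ h = φ h' + φ (cs.simple t) := by
        conv_lhs => rw [hh]
        exact hφ.simple _ _ hnd
      have e2 : φ h' = φ h'' + φ v' := by
        rw [hdec]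
        exact hφ _ _ (len_mul hh'' hv')
      have h9 := ih (cs.length h'') (by omega) h'' rfl hh''
      linarith
  intro y
  obtain ⟨g, hg, w, hw, hy⟩ := exists_right (cs := cs) J y
  have e1 : φ y = φ g + φ w := by
    rw [hy]
    exact hφ _ _ (len_mul hg hw)
  have e2 := hneg _ g rfl hg
  have e3 := hbest J hJ w hw
  linarith


/-- straightness gives the inequality -/
lemma straight_le [Fintype B] [DecidableEq B] {φ : W → ℝ} (hφ : IsW cs φ) {C : ℝ}
    (hb : ∀ g, φ g ≤ C) {J : Set B} {t : B} {v : W} (hv : v ∈ parab cs J) (Q : W → Prop)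
    (Q1 : Q 1) (hQ : ∀ g ∈ minRep cs J, Q g →
      ¬ cs.length (g * v * cs.simple t) < cs.length (g * v) ∧
      g * v * cs.simple t ∈ minRep cs J ∧ Q (g * v * cs.simple t)) :
    φ v + φ (cs.simple t) ≤ 0 := by
  have hp : ∀ n : ℕ, (v * cs.simple t) ^ n ∈ minRep cs J ∧ Q ((v * cs.simple t) ^ n) ∧
      φ ((v * cs.simple t) ^ n) = n * (φ v + φ (cs.simple t)) := by
    intro n
    induction n with
    | zero =>
      refine ⟨?_, by simpa using Q1, by simp [hφ.one]⟩
      intro s _
      simp
    | succ n ih =>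
      obtain ⟨h1, h2, h3⟩ := ih
      obtain ⟨a1, a2, a3⟩ := hQ _ h1 h2
      have e : (v * cs.simple t) ^ (n + 1) = (v * cs.simple t) ^ n * v * cs.simple t := by
        rw [pow_succ, mul_assoc _ v]
      rw [e]
      refine ⟨a2, a3, ?_⟩
      rw [hφ.simple _ _ a1, hφ _ v (len_mul h1 hv), h3]
      push_cast
      ring
  by_contra hpos
  push Not at hpos
  obtain ⟨n, hn⟩ := exists_nat_gt (C / (φ v + φ (cs.simple t)))
  rw [div_lt_iff₀ hpos] at hn
  have h1 := hb ((v * cs.simple t) ^ n)
  rw [(hp n).2.2] at h1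
  linarith

/-- the length of an element with two right descents with label at least 3 -/
lemma three_le [Fintype B] [DecidableEq B] {w : W} {p q : B} (hpq : p ≠ q) (h3 : 3 ≤ M p q)
    (hp : cs.length (w * cs.simple p) < cs.length w)
    (hq : cs.length (w * cs.simple q) < cs.length w) : 3 ≤ cs.length w := by
  obtain ⟨_, a1, _⟩ := right_two hpq.symm hq hp
  obtain ⟨_, _, a2⟩ := right_two hpq hp hq
  have a3 := a2 h3
  omega

/-- Lemma T -/
lemma lemT [Fintype B] [DecidableEq B] {J : Set B} {t : B} (ht : t ∉ J)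
    (hJ3 : ∀ a ∈ J, ∀ b ∈ J, a ≠ b → 3 ≤ M a b) (hJt : ∀ a ∈ J, 3 ≤ M a t) :
    ∀ (n : ℕ) (g u : W), cs.length (g * u) = n → g ∈ minRep cs J → u ∈ parab cs J →
      2 ≤ cs.length u → ¬ cs.length (g * u * cs.simple t) < cs.length (g * u) := by
  intro n
  induction n using Nat.strong_induction_on with
  | _ n ih =>
    intro g u hn hg hu h2u hd
    have hu1 : u ≠ 1 := by
      rintro rfl
      simp at h2u
    obtain ⟨q, hq⟩ := cs.exists_rightDescent_of_ne_one hu1
    have hq' : cs.length (u * cs.simple q) < cs.length u := hq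
    have hqJ : q ∈ J := desc_mem hu hq'
    have hqt : q ≠ t := fun h => ht (h ▸ hqJ)
    have hul : cs.length (u * cs.simple q) + 1 = cs.length u := by
      rcases cs.length_mul_simple u q with h | h <;> omega
    have hv1 : u * cs.simple q ≠ 1 := by
      intro h
      rw [h, cs.length_one] at hul
      omega
    obtain ⟨p, hp⟩ := cs.exists_rightDescent_of_ne_one hv1
    have hp' : cs.length (u * cs.simple q * cs.simple p) < cs.length (u * cs.simple q) := hp
    have huqJ : u * cs.simple q ∈ parab cs J := mul_mem hu (simple_mem_parab hqJ)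
    have hpJ : p ∈ J := desc_mem huqJ hp'
    have hpt : p ≠ t := fun h => ht (h ▸ hpJ)
    have hpq : p ≠ q := by
      rintro rfl
      rw [ss'] at hp'
      omega
    have l0 := len_mul hg hu
    have l1 := len_mul hg huqJ
    have l2 := len_mul hg (mul_mem huqJ (simple_mem_parab (cs := cs) hpJ))
    have d0q : cs.length (g * u * cs.simple q) < cs.length (g * u) := by
      rw [mul_assoc, l1, l0]; omega
    obtain ⟨_, b1, _⟩ := right_two hqt d0q hd
    obtain ⟨_, _, b2⟩ := right_two hqt.symm hd d0q
    have b3 := b2 (by rw [M.symmetric]; exact hJt q hqJ)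
    have d1p : cs.length (g * u * cs.simple q * cs.simple p) <
        cs.length (g * u * cs.simple q) := by
      rw [mul_assoc g u, mul_assoc g (u * cs.simple q), l1, l2]; omega
    obtain ⟨_, c1, _⟩ := right_two hpt.symm b1 d1p
    obtain ⟨_, _, c2⟩ := right_two hpt d1p b1
    have c3 := c2 (hJt p hpJ)
    set z := g * u * cs.simple q * cs.simple t with hz
    obtain ⟨g', hg', w, hw, hzw⟩ := exists_right (cs := cs) J z
    have lz := len_mul hg' hw
    have lp := len_mul hg' (mul_mem hw (simple_mem_parab (cs := cs) hpJ))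
    have lq := len_mul hg' (mul_mem hw (simple_mem_parab (cs := cs) hqJ))
    have dwp : cs.length (w * cs.simple p) < cs.length w := by
      rw [hzw, mul_assoc, lp, lz] at c1; omega
    have dwq : cs.length (w * cs.simple q) < cs.length w := by
      rw [hzw, mul_assoc, lq, lz] at b3; omega
    have h3w := three_le hpq (hJ3 p hpJ q hqJ hpq) dwp dwq
    have lwp : cs.length (w * cs.simple p) + 1 = cs.length w := by
      rcases cs.length_mul_simple w p with h | h <;> omega
    have hzp : z * cs.simple p = g' * (w * cs.simple p) := by rw [hzw, mul_assoc]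
    rw [hzp] at c3
    refine ih (cs.length (g' * (w * cs.simple p))) ?_ g' (w * cs.simple p) rfl hg'
      (mul_mem hw (simple_mem_parab hpJ)) (by omega) c3
    have e1 : cs.length z = cs.length g' + cs.length w := by rw [hzw, lz]
    rw [lp]
    omega

/-- the finite dihedral group -/
lemma finite_pair {s t : B} (h : M s t ≠ 0) : Finite (parab cs ({t, s} : Set B)) := by
  set a := cs.simple s * cs.simple t with ha
  have hfo : IsOfFinOrder a := by
    rw [isOfFinOrder_iff_pow_eq_one]
    exact ⟨M s t, Nat.pos_of_ne_zero h, cs.simple_mul_simple_pow s t⟩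
  have hfin : (Subgroup.zpowers a : Set W).Finite := finite_zpowers.2 hfo
  have hsub : (parab cs ({t, s} : Set B) : Set W) ⊆
      (Subgroup.zpowers a : Set W) ∪ (fun w => w * cs.simple s) '' (Subgroup.zpowers a : Set W) := by
    intro w hw
    have key : ∀ k : ℤ, cs.simple s * a ^ k = a ^ (-k) * cs.simple s := by
      intro k
      have h1 : cs.simple s * a * (cs.simple s)⁻¹ = a⁻¹ := by
        rw [ha, cs.inv_simple, ss, mul_inv_rev, cs.inv_simple, cs.inv_simple]
      have h2 : cs.simple s * a ^ k * (cs.simple s)⁻¹ = a ^ (-k) := by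
        rw [← conj_zpow, h1, inv_zpow, zpow_neg]
      rw [← h2]; group
    have hmulr : ∀ x ∈ ((Subgroup.zpowers a : Set W) ∪
        (fun w => w * cs.simple s) '' (Subgroup.zpowers a : Set W)), ∀ y ∈
        ((Subgroup.zpowers a : Set W) ∪
        (fun w => w * cs.simple s) '' (Subgroup.zpowers a : Set W)), x * y ∈
        ((Subgroup.zpowers a : Set W) ∪
        (fun w => w * cs.simple s) '' (Subgroup.zpowers a : Set W)) := by
      rintro x (⟨i, rfl⟩ | ⟨_, ⟨i, rfl⟩, rfl⟩) y (⟨j, rfl⟩ | ⟨_, ⟨j, rfl⟩, rfl⟩)
      · left; exact ⟨i + j, by simp [zpow_add]⟩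
      · right; exact ⟨a ^ (i + j), ⟨i + j, rfl⟩, by simp [zpow_add, mul_assoc]⟩
      · right
        refine ⟨a ^ (i - j), ⟨i - j, rfl⟩, ?_⟩
        simp only [mul_assoc]
        rw [key j, ← mul_assoc, ← zpow_add, sub_eq_add_neg]
      · left
        refine ⟨i - j, ?_⟩
        simp only [mul_assoc]
        rw [← mul_assoc (cs.simple s) (a ^ j), key j, mul_assoc, cs.simple_mul_simple_self,
          mul_one, ← zpow_add, sub_eq_add_neg]
    have hw' : w ∈ Subgroup.closure (cs.simple '' ({t, s} : Set B)) := hw
    induction hw' using Subgroup.closure_induction with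
    | mem x hx =>
      obtain ⟨i, hi, rfl⟩ := hx
      rcases hi with rfl | hi
      · right
        refine ⟨a ^ (-1 : ℤ), ⟨-1, rfl⟩, ?_⟩
        simp only [zpow_neg, zpow_one]
        rw [ha, mul_inv_rev, cs.inv_simple, cs.inv_simple, mul_assoc, cs.simple_mul_simple_self,
          mul_one]
      · rw [Set.mem_singleton_iff] at hi
        subst hi
        right
        exact ⟨1, ⟨0, by simp⟩, by simp⟩
    | one => left; exact ⟨0, by simp⟩
    | mul x y hx hy hx' hy' => exact hmulr x (hx' hx) y (hy' hy)
    | inv x hx hx' =>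
      rcases hx' hx with ⟨i, rfl⟩ | ⟨_, ⟨i, rfl⟩, rfl⟩
      · left; exact ⟨-i, by simp⟩
      · right
        refine ⟨a ^ i, ⟨i, rfl⟩, ?_⟩
        simp only [mul_inv_rev, cs.inv_simple]
        have := key (-i)
        rw [neg_neg] at this
        rw [← zpow_neg, this]
  exact (Set.Finite.subset (hfin.union (hfin.image _)) hsub).to_subtype

end Pool.Agent.T6.H70.CX
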